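import Pool.Agent.W425.SM.HH

set_option autoImplicit false

namespace Pool.Agent.W425.SM

open MvPolynomial Pool.Agent.H628R4.TZ Pool.Agent.H628R4.TP MeasureTheory Set Filter Topology

variable {r N : ℕ}

/-- The formal integral: in the growing directions of the list `L` the integral of a function
which is eventually `const * exp (-λ w)`, `λ < 0`, is defined by Stokes' formula. -/
noncomputable def FF (v : Fin r → Fin N → ℕ) (ε : ℝ) (κ : Fin r → ℕ) (s : ℝ) (y0 : Fin r → ℝ) :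
    List (Fin N) → Finset (Fin N) → MvPolynomial (Fin r) ℂ → ℂ
  | [], S, p => HH v ε κ s y0 S p
  | i :: L, S, p => (1 - (ell v κ i : ℂ))⁻¹ *
      (FF v ε κ s y0 L (insert i S) p - FF v ε κ s y0 L S (mm v κ i * p))

/-- the directions not in the list are good -/
def Hyp (v : Fin r → Fin N → ℕ) (ε : ℝ) (κ : Fin r → ℕ) (L : List (Fin N)) (S : Finset (Fin N))
    (p : MvPolynomial (Fin r) ℂ) : Prop :=
  ∀ i, i ∉ S → i ∉ L → 0 < ell v κ i → GoodDir v ε κ i p

lemma Hyp.mul_left {v : Fin r → Fin N → ℕ} {ε : ℝ} {κ : Fin r → ℕ} {L : List (Fin N)}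
    {S : Finset (Fin N)} {p : MvPolynomial (Fin r) ℂ} (h : Hyp v ε κ L S p)
    (q : MvPolynomial (Fin r) ℂ) : Hyp v ε κ L S (q * p) :=
  fun i h1 h2 h3 => (h i h1 h2 h3).mul_left q

lemma Hyp.insert_right {v : Fin r → Fin N → ℕ} {ε : ℝ} {κ : Fin r → ℕ} {L : List (Fin N)}
    {S : Finset (Fin N)} {p : MvPolynomial (Fin r) ℂ} {i : Fin N} (h : Hyp v ε κ (i :: L) S p) :
    Hyp v ε κ L (insert i S) p := by
  intro i' h1 h2 h3
  rw [Finset.mem_insert, not_or] at h1
  exact h i' h1.2 (by simp [h1.1, h2]) h3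

lemma Hyp.mm_right {v : Fin r → Fin N → ℕ} {ε : ℝ} (hε : 0 < ε) {κ : Fin r → ℕ}
    {L : List (Fin N)} {S : Finset (Fin N)} {p : MvPolynomial (Fin r) ℂ} {i : Fin N}
    (h : Hyp v ε κ (i :: L) S p) : Hyp v ε κ L S (mm v κ i * p) := by
  intro i' h1 h2 h3
  by_cases hi : i' = i
  · subst hi
    exact (goodDir_mm hε).mul_right p
  · exact (h i' h1 (by simp [hi, h2]) h3).mul_left _

lemma HH_sum (v : Fin r → Fin N → ℕ) (ε : ℝ) (hε : 0 < ε) (κ : Fin r → ℕ) (s : ℝ)
    (hs : (Lam v κ : ℝ) + 1 ≤ s) (y0 : Fin r → ℝ) (S : Finset (Fin N)) {ι : Type*}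
    (t : Finset ι) (p : ι → MvPolynomial (Fin r) ℂ) (hp : ∀ c ∈ t, Gd v ε κ S (p c)) :
    HH v ε κ s y0 S (∑ c ∈ t, p c) = ∑ c ∈ t, HH v ε κ s y0 S (p c) := by
  unfold HH
  simp only [map_sum, Finset.mul_sum]
  exact integral_finsetSum _ fun c hc => HH_integrable v ε hε κ s hs y0 S _ (hp c hc)

lemma HH_C (v : Fin r → Fin N → ℕ) (ε : ℝ) (κ : Fin r → ℕ) (s : ℝ) (y0 : Fin r → ℝ)
    (S : Finset (Fin N)) (c : ℂ) (p : MvPolynomial (Fin r) ℂ) :
    HH v ε κ s y0 S (C c * p) = c * HH v ε κ s y0 S p := by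
  unfold HH
  rw [← integral_const_mul]
  refine integral_congr_ae (Eventually.of_forall fun x => ?_)
  simp only
  rw [C_mul', map_smul, smul_eq_mul]
  ring

lemma FF_sum (v : Fin r → Fin N → ℕ) (ε : ℝ) (hε : 0 < ε) (κ : Fin r → ℕ) (s : ℝ)
    (hs : (Lam v κ : ℝ) + 1 ≤ s) (y0 : Fin r → ℝ) {ι : Type*} (t : Finset ι) (L : List (Fin N)) :
    ∀ (S : Finset (Fin N)) (p : ι → MvPolynomial (Fin r) ℂ), (∀ c ∈ t, Hyp v ε κ L S (p c)) →
    FF v ε κ s y0 L S (∑ c ∈ t, p c) = ∑ c ∈ t, FF v ε κ s y0 L S (p c) := by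
  induction L with
  | nil =>
    intro S p hp
    exact HH_sum v ε hε κ s hs y0 S t p fun c hc i hi h => hp c hc i hi (by simp) h
  | cons i L ih =>
    intro S p hp
    simp only [FF]
    rw [Finset.mul_sum, ih _ _ (fun c hc => (hp c hc).insert_right),
      ih _ _ (fun c hc => (hp c hc).mm_right hε), ← Finset.sum_sub_distrib, Finset.mul_sum]

lemma FF_C (v : Fin r → Fin N → ℕ) (ε : ℝ) (κ : Fin r → ℕ) (s : ℝ) (y0 : Fin r → ℝ)
    (L : List (Fin N)) : ∀ (S : Finset (Fin N)) (c : ℂ) (p : MvPolynomial (Fin r) ℂ),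
    FF v ε κ s y0 L S (C c * p) = c * FF v ε κ s y0 L S p := by
  induction L with
  | nil => intro S c p; exact HH_C v ε κ s y0 S c p
  | cons i L ih =>
    intro S c p
    simp only [FF]
    rw [mul_left_comm, ih, ih]
    ring

lemma FF_sub (v : Fin r → Fin N → ℕ) (ε : ℝ) (hε : 0 < ε) (κ : Fin r → ℕ) (s : ℝ)
    (hs : (Lam v κ : ℝ) + 1 ≤ s) (y0 : Fin r → ℝ) (L : List (Fin N)) (S : Finset (Fin N))
    (p q : MvPolynomial (Fin r) ℂ) (hp : Hyp v ε κ L S p) (hq : Hyp v ε κ L S q) :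
    FF v ε κ s y0 L S (p - q) = FF v ε κ s y0 L S p - FF v ε κ s y0 L S q := by
  have h := FF_sum v ε hε κ s hs y0 (Finset.univ : Finset (Fin 2)) L S
    (fun c => if c = 0 then p else C (-1) * q) (by
      intro c _
      fin_cases c
      · simpa using hp
      · simpa using hq.mul_left (C (-1)))
  simp only [Fin.sum_univ_two, Fin.isValue, ↓reduceIte, one_ne_zero] at h
  rw [FF_C] at h
  have h2 : p - q = p + C (-1) * q := by simp [sub_eq_add_neg]
  rw [h2, h]
  ring

/-- Stokes in a direction outside the list -/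
lemma FF_out (v : Fin r → Fin N → ℕ) (ε : ℝ) (hε : 0 < ε) (κ : Fin r → ℕ) (s : ℝ)
    (hs : (Lam v κ : ℝ) + 1 ≤ s) (y0 : Fin r → ℝ) (i : Fin N) (L : List (Fin N)) :
    ∀ (S : Finset (Fin N)) (p : MvPolynomial (Fin r) ℂ), i ∉ S → i ∉ L → Hyp v ε κ L S p →
    FF v ε κ s y0 L S (el v i * p) = FF v ε κ s y0 L (insert i S) p := by
  induction L with
  | nil =>
    intro S p hi _ hp
    exact HH_step v ε hε κ s hs y0 S i hi p fun i' hi' h => hp i' hi' (by simp) h
  | cons i' L ih =>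
    intro S p hi hiL hp
    rw [List.mem_cons, not_or] at hiL
    simp only [FF]
    rw [mul_left_comm (mm v κ i'), ih (insert i' S) p (by simp [hiL.1, hi]) hiL.2 hp.insert_right,
      ih S _ hi hiL.2 (hp.mm_right hε), Finset.insert_comm]

/-- Stokes in a direction of the list -/
lemma FF_in (v : Fin r → Fin N → ℕ) (ε : ℝ) (hε : 0 < ε) (κ : Fin r → ℕ) (s : ℝ)
    (hs : (Lam v κ : ℝ) + 1 ≤ s) (y0 : Fin r → ℝ) (i : Fin N) (hell : ell v κ i ≠ 1)
    (L : List (Fin N)) :
    ∀ (S : Finset (Fin N)) (p : MvPolynomial (Fin r) ℂ), i ∉ S → i ∈ L → L.Nodup →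
      Hyp v ε κ L S p →
    FF v ε κ s y0 L S (el v i * p) = FF v ε κ s y0 (L.erase i) (insert i S) p := by
  classical
  induction L with
  | nil => intro S p _ h; simp at h
  | cons i' L ih =>
    intro S p hi hiL hnd hp
    rw [List.nodup_cons] at hnd
    by_cases hii : i' = i
    · subst hii
      rw [List.erase_cons_head]
      simp only [FF]
      rw [mul_left_comm (mm v κ i'), FF_out v ε hε κ s hs y0 i' L S _ hi hnd.1 (hp.mm_right hε),
        ← FF_sub v ε hε κ s hs y0 L (insert i' S) _ _ (hp.insert_right.mul_left _)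
          (hp.insert_right.mul_left _)]
      have h1 : el v i' * p - mm v κ i' * p = C (1 - (ell v κ i' : ℂ)) * p := by
        unfold el mm
        rw [← sub_mul]
        congr 1
        simp
        ring
      rw [h1, FF_C, ← mul_assoc, inv_mul_cancel₀, one_mul]
      rw [sub_ne_zero]
      intro h
      exact hell (by exact_mod_cast h.symm)
    · have hiL' : i ∈ L := by
        rcases List.mem_cons.1 hiL with h | h
        · exact absurd h.symm hii
        · exact h
      rw [List.erase_cons_tail (by simpa using hii)]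
      simp only [FF]
      rw [mul_left_comm (mm v κ i'), ih (insert i' S) p
        (by rw [Finset.mem_insert, not_or]; exact ⟨fun h => hii h.symm, hi⟩) hiL' hnd.2
        hp.insert_right, ih S _ hi hiL' hnd.2 (hp.mm_right hε), Finset.insert_comm]

/-- agreement with the honest integral -/
lemma FF_eq (v : Fin r → Fin N → ℕ) (ε : ℝ) (hε : 0 < ε) (κ : Fin r → ℕ) (s : ℝ)
    (hs : (Lam v κ : ℝ) + 1 ≤ s) (y0 : Fin r → ℝ) (L : List (Fin N)) :
    ∀ (S : Finset (Fin N)) (p : MvPolynomial (Fin r) ℂ), (∀ i ∈ L, i ∉ S) → L.Nodup →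
      (∀ i ∈ L, ell v κ i ≠ 1) → Gd v ε κ S p →
    FF v ε κ s y0 L S p = HH v ε κ s y0 S p := by
  induction L with
  | nil => intro S p _ _ _ _; rfl
  | cons i L ih =>
    intro S p hLS hnd hell hp
    rw [List.nodup_cons] at hnd
    have hp2 : Gd v ε κ (insert i S) p := fun i' hi' h =>
      hp i' (fun h' => hi' (Finset.mem_insert_of_mem h')) h
    simp only [FF]
    rw [ih (insert i S) p (fun i' hi' => ?_) hnd.2 (fun i' hi' => hell i' (by simp [hi'])) hp2,
      ih S _ (fun i' hi' => hLS i' (by simp [hi'])) hnd.2 (fun i' hi' => hell i' (by simp [hi']))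
        (fun i' hi' h => (hp i' hi' h).mul_left _),
      ← HH_step v ε hε κ s hs y0 S i (hLS i (by simp)) p hp]
    · have h1 : el v i * p = mm v κ i * p + C (1 - (ell v κ i : ℂ)) * p := by
        unfold el mm
        rw [← add_mul]
        congr 1
        simp
        ring
      have h2 := HH_sum v ε hε κ s hs y0 S (Finset.univ : Finset (Fin 2))
        (fun c => if c = 0 then mm v κ i * p else C (1 - (ell v κ i : ℂ)) * p) (by
          intro c _ i' hi' h
          fin_cases c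
          · simpa using (hp i' hi' h).mul_left (mm v κ i)
          · exact (hp i' hi' h).mul_left (C (1 - (ell v κ i : ℂ))))
      simp only [Fin.sum_univ_two, Fin.isValue, ↓reduceIte, one_ne_zero] at h2
      rw [h1, h2, HH_C, add_sub_cancel_left, ← mul_assoc, inv_mul_cancel₀, one_mul]
      rw [sub_ne_zero]
      intro h
      exact hell i (by simp) (by exact_mod_cast h.symm)
    · rw [Finset.mem_insert, not_or]
      refine ⟨fun h => hnd.1 (h ▸ hi'), hLS i' (by simp [hi'])⟩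

lemma FF_kill (v : Fin r → Fin N → ℕ) (ε : ℝ) (κ : Fin r → ℕ) (s : ℝ) (y0 : Fin r → ℝ)
    (P : MvPolynomial (Fin r) ℂ) (S0 : Finset (Fin N))
    (h0 : ∀ (S : Finset (Fin N)) (q : MvPolynomial (Fin r) ℂ), S0 ⊆ S →
      HH v ε κ s y0 S (q * P) = 0) (L : List (Fin N)) :
    ∀ (S : Finset (Fin N)) (q : MvPolynomial (Fin r) ℂ), S0 ⊆ S →
      FF v ε κ s y0 L S (q * P) = 0 := by
  induction L with
  | nil => intro S q hS; exact h0 S q hS
  | cons i L ih =>
    intro S q hS
    simp only [FF]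
    rw [← mul_assoc (mm v κ i), ih _ _ hS, ih _ _ (hS.trans (Finset.subset_insert _ _))]
    simp

/-- iterated Stokes -/
lemma FF_steps (v : Fin r → Fin N → ℕ) (ε : ℝ) (hε : 0 < ε) (κ : Fin r → ℕ) (s : ℝ)
    (hs : (Lam v κ : ℝ) + 1 ≤ s) (y0 : Fin r → ℝ) (B : Finset (Fin N)) :
    ∀ (L : List (Fin N)) (S : Finset (Fin N)) (p : MvPolynomial (Fin r) ℂ),
      Disjoint B S → L.Nodup → (∀ i ∈ L, ell v κ i ≠ 1) → Hyp v ε κ L S p →
    ∃ L', FF v ε κ s y0 L S ((∏ i ∈ B, el v i) * p) = FF v ε κ s y0 L' (B ∪ S) p := by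
  classical
  induction B using Finset.induction_on with
  | empty => intro L S p _ _ _ _; exact ⟨L, by simp⟩
  | insert i B hi ih =>
    intro L S p hB hnd hell hp
    rw [Finset.disjoint_insert_left] at hB
    rw [Finset.prod_insert hi, mul_assoc]
    by_cases hiL : i ∈ L
    · rw [FF_in v ε hε κ s hs y0 i (hell i hiL) L S _ hB.1 hiL hnd (hp.mul_left _)]
      obtain ⟨L', hL'⟩ := ih (L.erase i) (insert i S) p
        (by rw [Finset.disjoint_insert_right]; exact ⟨hi, hB.2⟩) (hnd.erase i)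
        (fun i' hi' => hell i' (List.mem_of_mem_erase hi'))
        (fun i' h1 h2 h3 => by
          rw [Finset.mem_insert, not_or] at h1
          exact hp i' h1.2 (fun h => h2 ((List.mem_erase_of_ne h1.1).2 h)) h3)
      exact ⟨L', by rw [hL', Finset.insert_union, Finset.union_insert]⟩
    · rw [FF_out v ε hε κ s hs y0 i L S _ hB.1 hiL (hp.mul_left _)]
      obtain ⟨L', hL'⟩ := ih L (insert i S) p
        (by rw [Finset.disjoint_insert_right]; exact ⟨hi, hB.2⟩) hnd hell
        (fun i' h1 h2 h3 => by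
          rw [Finset.mem_insert, not_or] at h1
          exact hp i' h1.2 h2 h3)
      exact ⟨L', by rw [hL', Finset.insert_union, Finset.union_insert]⟩

/-- the translation vector -/
noncomputable def yT (v : Fin r → Fin N → ℕ) (T δ : ℝ) (j : Fin r) : ℝ :=
  -T - δ * ∑ i, (v j i : ℝ)

lemma killed (v : Fin r → Fin N → ℕ) (ε : ℝ) (hε : 0 < ε) (κ : Fin r → ℕ) (M : ℕ)
    (hκ : ∀ j, κ j ≤ M) (s T δ : ℝ) (c : Fin r → ℤ) (hc : ∑ j, c j = 1)
    (hT : (ε + |δ|) * (∑ j, |(c j : ℝ)| + ∑ i, |∑ j, (c j : ℝ) * (v j i : ℝ)|) < T)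
    (S : Finset (Fin N)) (q : MvPolynomial (Fin r) ℂ) (hS : Bc v c ⊆ S) :
    HH v ε κ s (yT v T δ) S (q * ∏ j, (if c j < 0 then X j * dm M j else 1)) = 0 := by
  classical
  unfold HH
  refine integral_eq_zero_of_ae ?_
  filter_upwards [ae_ms (S.map (Fin.succEmb N))] with x hx
  obtain ⟨hx0, hxS⟩ := hx
  set y := Y (av v) (yT v T δ) x with hy
  by_contra hne
  have hne' : DD (pk ε κ) y (q * ∏ j, (if c j < 0 then X j * dm M j else 1)) ≠ 0 := by
    intro h
    apply hne
    simp only [Pi.zero_apply]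
    rw [h, mul_zero]
  have h1 : ∀ j, 0 ≤ y j := by
    intro j
    by_contra h
    exact hne' (DD_neg ε hε κ y j (not_le.1 h) _)
  have h2 : ∀ j, c j < 0 → y j ≤ ε := by
    intro j hj
    by_contra h
    apply hne'
    have h3 : (X j + C ((κ j : ℕ) : ℂ)) ∣ q * ∏ j, (if c j < 0 then X j * dm M j else 1) := by
      refine Dvd.dvd.mul_left ?_ q
      refine (Xdm_dvd M j (κ j) (hκ j)).trans ?_
      have := Finset.dvd_prod_of_mem
        (fun j => (if c j < 0 then X j * dm M j else 1 : MvPolynomial (Fin r) ℂ)) (Finset.mem_univ j)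
      simpa [hj] using this
    obtain ⟨w, hw⟩ := h3
    rw [hw]
    exact DD_tail ε hε κ y j (not_le.1 h) w
  have h3 : -(ε * ∑ j, |(c j : ℝ)|) ≤ ∑ j, (c j : ℝ) * y j := by
    rw [Finset.mul_sum, ← Finset.sum_neg_distrib]
    refine Finset.sum_le_sum fun j _ => ?_
    rcases lt_or_ge (c j) 0 with h | h
    · have h' : (c j : ℝ) < 0 := by exact_mod_cast h
      rw [abs_of_neg h']
      nlinarith [h2 j h]
    · have h' : (0:ℝ) ≤ c j := by exact_mod_cast h
      rw [abs_of_nonneg h']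
      nlinarith [h1 j, mul_nonneg h' (h1 j), mul_nonneg hε.le h']
  have hcR : ∑ j, (c j : ℝ) = 1 := by exact_mod_cast hc
  have h4 : ∑ j, (c j : ℝ) * y j = ∑ i : Fin N, (∑ j, (c j : ℝ) * v j i) * x i.succ - (x 0 + T) -
      δ * ∑ i : Fin N, (∑ j, (c j : ℝ) * v j i) := by
    have : ∀ j, (c j : ℝ) * y j = ∑ i, (c j : ℝ) * v j i * x i.succ - (c j : ℝ) * (x 0 + T) -
        δ * ∑ i, (c j : ℝ) * v j i := by
      intro j
      rw [hy, Y_av', yT, ← Finset.mul_sum]
      simp only [mul_assoc]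
      rw [← Finset.mul_sum]
      ring
    simp only [this]
    rw [Finset.sum_sub_distrib, Finset.sum_sub_distrib, ← Finset.sum_mul, hcR, one_mul,
      ← Finset.mul_sum, Finset.sum_comm, Finset.sum_comm (s := Finset.univ (α := Fin r))
        (f := fun j i => (c j : ℝ) * (v j i : ℝ))]
    congr 2
    exact Finset.sum_congr rfl fun i _ => by rw [Finset.sum_mul]
  have h5 : ∑ i : Fin N, (∑ j, (c j : ℝ) * v j i) * x i.succ ≤ 0 := by
    refine Finset.sum_nonpos fun i _ => ?_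
    rcases lt_or_ge 0 (∑ j, c j * (v j i : ℤ)) with h | h
    · have hiS : i ∈ S := hS (by simp [Bc, h])
      rw [hxS i.succ (by simp [hiS]), mul_zero]
    · have h' : (∑ j, (c j : ℝ) * v j i) ≤ 0 := by exact_mod_cast h
      exact mul_nonpos_of_nonpos_of_nonneg h' (hx0 _)
  have h6 := hx0 0
  have h7 : -(δ * ∑ i : Fin N, (∑ j, (c j : ℝ) * v j i)) ≤
      |δ| * ∑ i, |∑ j, (c j : ℝ) * (v j i : ℝ)| := by
    refine (neg_le_abs _).trans ?_
    rw [abs_mul]
    exact mul_le_mul_of_nonneg_left (Finset.abs_sum_le_sum_abs _ _) (abs_nonneg _)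
  have h8 : 0 ≤ ε * ∑ i, |∑ j, (c j : ℝ) * (v j i : ℝ)| := by positivity
  have h9 : 0 ≤ |δ| * ∑ j, |(c j : ℝ)| := by positivity
  nlinarith

/-- **The functional kills `k * p(∑ X_j)`.** -/
theorem killsK (v : Fin r → Fin N → ℕ) (p : Polynomial ℂ) (hR : RelM v p)
    (k : MvPolynomial (Fin r) ℂ)
    (hk : ∀ (κ : Fin r → ℕ) (i : Fin N), ∑ j, κ j * v j i = 1 →
      k ∈ Ideal.span {p : MvPolynomial (Fin r) ℂ | ∃ j, 0 < v j i ∧ p = X j + C ((κ j : ℕ) : ℂ)}) :
    ∃ K0 s0 : ℝ, 0 ≤ K0 ∧ 0 < s0 ∧ ∀ ε > 0, ∀ δ T : ℝ, (ε + |δ|) * K0 < T → ∀ s : ℝ, s0 ≤ s →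
      Φ (ph ε) ∅ (lm (N := N) s) (av v) (yT v T δ)
        (k * Polynomial.aeval (∑ j, X j : MvPolynomial (Fin r) ℂ) p) = 0 := by
  classical
  obtain ⟨M, Cs, q, hc, hrel⟩ := hR
  obtain ⟨cf, hcf⟩ := DD_sum (r := r) M
  set KK := Fintype.piFinset (fun _ : Fin r => Finset.range (M+1)) with hKK
  refine ⟨∑ c ∈ Cs, (∑ j, |(c j : ℝ)| + ∑ i, |∑ j, (c j : ℝ) * (v j i : ℝ)|),
    (∑ κ ∈ KK, (Lam v κ : ℝ)) + 1, by positivity, by positivity,
    fun ε hε δ T hT s hs => ?_⟩
  have hzero : ∀ κ ∈ KK, HH v ε κ s (yT v T δ) ∅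
      ((k * Polynomial.aeval (∑ j, X j : MvPolynomial (Fin r) ℂ) p) * ∏ j, dm M j) = 0 ∧
      Gd v ε κ ∅ ((k * Polynomial.aeval (∑ j, X j : MvPolynomial (Fin r) ℂ) p) * ∏ j, dm M j) ∧
      (Lam v κ : ℝ) + 1 ≤ s := by
    intro κ hκ
    have hκM : ∀ j, κ j ≤ M := fun j => by
      have := (Fintype.mem_piFinset.1 hκ) j
      rw [Finset.mem_range] at this
      omega
    have hs' : (Lam v κ : ℝ) + 1 ≤ s := by
      refine le_trans ?_ hs
      have := Finset.single_le_sum (f := fun κ : Fin r → ℕ => (Lam v κ : ℝ))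
        (fun _ _ => Nat.cast_nonneg _) hκ
      linarith
    have hGd : Gd v ε κ ∅
        ((k * Polynomial.aeval (∑ j, X j : MvPolynomial (Fin r) ℂ) p) * ∏ j, dm M j) := by
      intro i _ hi
      have h1 : ∃ j, 0 < κ j * v j i := by
        by_contra hcon
        push Not at hcon
        have : ell v κ i = 0 := Finset.sum_eq_zero fun j _ => Nat.le_zero.1 (hcon j)
        omega
      obtain ⟨j, hj⟩ := h1
      have hj1 : 0 < κ j := Nat.pos_of_mul_pos_right hj
      have hj2 : 0 < v j i := Nat.pos_of_mul_pos_left hj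
      refine (goodDir_lin hε (κ := κ) j hj2).of_dvd ?_
      refine Dvd.dvd.mul_left ?_ _
      exact (dm_dvd M j (κ j) hj1 (hκM j)).trans (Finset.dvd_prod_of_mem _ (Finset.mem_univ j))
    refine ⟨?_, hGd, hs'⟩
    set L : List (Fin N) := (Finset.univ.filter fun i => 2 ≤ ell v κ i).toList with hL
    have hLnd : L.Nodup := Finset.nodup_toList _
    have hLell : ∀ i ∈ L, ell v κ i ≠ 1 := fun i hi => by
      have : 2 ≤ ell v κ i := by simpa [hL] using hi
      omega
    have hkgood : ∀ i, i ∉ L → 0 < ell v κ i → GoodDir v ε κ i k := by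
      intro i hi h
      have h1 : ell v κ i = 1 := by
        have : ¬ 2 ≤ ell v κ i := fun h' => hi (by simp [hL, h'])
        omega
      have h2 := hk κ i h1
      rw [← Submodule.mem_toAddSubmonoid, ] at h2
      refine Submodule.span_induction (p := fun x _ => GoodDir v ε κ i x) ?_ ?_ ?_ ?_
        (by simpa [Ideal.span] using h2)
      · rintro x ⟨j, hj, rfl⟩
        exact goodDir_lin hε j hj
      · exact GoodDir.zero
      · intro x y _ _ hx hy
        exact hx.add hy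
      · intro a x _ hx
        exact hx.mul_left a
    rw [← FF_eq v ε hε κ s hs' _ L ∅ _ (by simp) hLnd hLell hGd]
    have h3 : (k * Polynomial.aeval (∑ j, X j : MvPolynomial (Fin r) ℂ) p) * ∏ j, dm M j =
        ∑ c ∈ Cs, (∏ i ∈ Bc v c, el v i) *
          ((k * q c) * ∏ j, (if c j < 0 then X j * dm M j else 1)) := by
      rw [mul_assoc, hrel, Finset.mul_sum]
      exact Finset.sum_congr rfl fun c _ => by ring
    rw [h3, FF_sum v ε hε κ s hs']
    · refine Finset.sum_eq_zero fun c hcc => ?_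
      have hH : Hyp v ε κ L ∅ ((k * q c) * ∏ j, (if c j < 0 then X j * dm M j else 1)) :=
        fun i _ h1 h2 => ((hkgood i h1 h2).mul_right _).mul_right _
      obtain ⟨L', hL'⟩ := FF_steps v ε hε κ s hs' (yT v T δ) (Bc v c) L ∅ _
        (Finset.disjoint_empty_right _) hLnd hLell hH
      rw [hL', Finset.union_empty]
      refine FF_kill v ε κ s _ _ (Bc v c) (fun S q' hS => ?_) L' _ _ subset_rfl
      refine killed v ε hε κ M hκM s T δ c (hc c hcc) (lt_of_le_of_lt ?_ hT) S q' hS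
      refine mul_le_mul_of_nonneg_left ?_ (by positivity)
      exact Finset.single_le_sum (f := fun c : Fin r → ℤ =>
        (∑ j, |(c j : ℝ)| + ∑ i, |∑ j, (c j : ℝ) * (v j i : ℝ)|)) (fun c _ => by positivity) hcc
    · intro c _ i _ h1 h2
      exact (((hkgood i h1 h2).mul_right _).mul_right _).mul_left _
  have hfin : Φ (ph ε) ∅ (lm (N := N) s) (av v) (yT v T δ)
        (k * Polynomial.aeval (∑ j, X j : MvPolynomial (Fin r) ℂ) p) =
      ∑ κ ∈ KK, (∏ j, cf (κ j)) * HH v ε κ s (yT v T δ) ∅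
        ((k * Polynomial.aeval (∑ j, X j : MvPolynomial (Fin r) ℂ) p) * ∏ j, dm M j) := by
    unfold Φ HH
    simp only [← integral_const_mul]
    rw [Finset.map_empty, ← integral_finsetSum]
    · refine integral_congr_ae (Eventually.of_forall fun x => ?_)
      simp only
      rw [← hcf ε hε, Finset.mul_sum]
      exact Finset.sum_congr rfl fun κ _ => by ring
    · intro κ hκ
      have := HH_integrable v ε hε κ s (hzero κ hκ).2.2 (yT v T δ) ∅ _ (hzero κ hκ).2.1
      rw [Finset.map_empty] at this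
      exact this.const_mul _
  rw [hfin]
  exact Finset.sum_eq_zero fun κ hκ => by rw [(hzero κ hκ).1, mul_zero]

end Pool.Agent.W425.SM
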