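import Pool.Agent.W425.SM.Fin

set_option autoImplicit false

namespace Pool.Agent.W425.SM

open MvPolynomial Pool.Agent.H628R4.TZ Pool.Agent.H628R4.TP MeasureTheory Set Filter Topology

variable {r N : ℕ}

noncomputable def PeK (v : Fin r → Fin N → ℕ) (y0 : Fin r → ℝ) (ε : ℝ)
    (kk : MvPolynomial (Fin r) ℂ) (b : Polynomial ℂ) : Polynomial ℂ :=
  ∑ k ∈ Finset.range (b.natDegree + 1), ∑ i ∈ Finset.range k,
    Polynomial.monomial i (b.coeff k *
      Φ (ph ε) {0} (lm (N := N) 1) (av v) y0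
        (kk * (∑ j, X j : MvPolynomial (Fin r) ℂ) ^ (k - 1 - i)))

lemma PeK_natDegree (v : Fin r → Fin N → ℕ) (y0 : Fin r → ℝ) (ε : ℝ)
    (kk : MvPolynomial (Fin r) ℂ) (b : Polynomial ℂ) :
    (PeK v y0 ε kk b).natDegree ≤ b.natDegree := by
  unfold PeK
  refine Polynomial.natDegree_sum_le_of_forall_le _ _ fun k hk => ?_
  refine Polynomial.natDegree_sum_le_of_forall_le _ _ fun i hi => ?_
  refine (Polynomial.natDegree_monomial_le _).trans ?_
  simp only [Finset.mem_range] at hk hi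
  omega

lemma PeK_eval (v : Fin r → Fin N → ℕ) (y0 : Fin r → ℝ) (ε : ℝ)
    (kk : MvPolynomial (Fin r) ℂ) (b : Polynomial ℂ) (s : ℝ) (hε : 0 < ε) (hs : 0 < s)
    (h0 : Φ (ph ε) ∅ (lm (N := N) s) (av v) y0
        (kk * Polynomial.aeval (∑ j, X j : MvPolynomial (Fin r) ℂ) b) = 0) :
    b.eval (s : ℂ) * Φ (ph ε) ∅ (lm (N := N) s) (av v) y0 kk =
      (PeK v y0 ε kk b).eval (s : ℂ) := by
  set σ : MvPolynomial (Fin r) ℂ := ∑ j, X j with hσ
  set β : MvPolynomial (Fin r) ℂ := ∑ k ∈ Finset.range (b.natDegree + 1),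
    C (b.coeff k) * ∑ i ∈ Finset.range k, (C (s:ℂ)) ^ i * (kk * σ ^ (k - 1 - i)) with hβ
  have h1 : C (b.eval (s:ℂ)) * kk = kk * Polynomial.aeval σ b + (C (s:ℂ) - σ) * β := by
    have h2 : (C (b.eval (s:ℂ)) : MvPolynomial (Fin r) ℂ) =
        ∑ k ∈ Finset.range (b.natDegree + 1), C (b.coeff k) * (C (s:ℂ)) ^ k := by
      rw [Polynomial.eval_eq_sum_range, map_sum]
      exact Finset.sum_congr rfl fun k _ => by rw [map_mul, map_pow]
    have h3 : Polynomial.aeval σ b = ∑ k ∈ Finset.range (b.natDegree + 1),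
        C (b.coeff k) * σ ^ k := by
      rw [Polynomial.aeval_eq_sum_range]
      exact Finset.sum_congr rfl fun k _ => by rw [C_mul']
    have hβ' : β = kk * ∑ k ∈ Finset.range (b.natDegree + 1),
        C (b.coeff k) * ∑ i ∈ Finset.range k, (C (s:ℂ)) ^ i * σ ^ (k - 1 - i) := by
      rw [hβ, Finset.mul_sum]
      refine Finset.sum_congr rfl fun k _ => ?_
      rw [mul_left_comm, Finset.mul_sum (a := kk)]
      congr 1
      exact Finset.sum_congr rfl fun i _ => by ring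
    have h5 : (C (b.eval (s:ℂ)) : MvPolynomial (Fin r) ℂ) = Polynomial.aeval σ b +
        (C (s:ℂ) - σ) * ∑ k ∈ Finset.range (b.natDegree + 1),
        C (b.coeff k) * ∑ i ∈ Finset.range k, (C (s:ℂ)) ^ i * σ ^ (k - 1 - i) := by
      rw [h2, h3, Finset.mul_sum, ← Finset.sum_add_distrib]
      refine Finset.sum_congr rfl fun k _ => ?_
      have h4 := geom_sum₂_mul (C (s:ℂ) : MvPolynomial (Fin r) ℂ) σ k
      linear_combination (-C (b.coeff k)) * h4
    rw [hβ', h5]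
    ring
  have h5 : C (s:ℂ) - σ = C ((lm (N := N) s 0 : ℝ) : ℂ) + Lf (fun j => av v j 0) := by
    simp [lm, Lf, av, hσ, sub_eq_add_neg, Finset.sum_neg_distrib]
  rw [← Φ_C_mul, h1, Φ_add (ph_dseq ε hε) _ _ (lm_pos s hs), h0, zero_add, h5,
    Φ_step (ph_dseq ε hε) ∅ _ (lm_pos s hs) _ _ 0 (by simp)]
  have h6 : (insert 0 ∅ : Finset (Fin (N+1))) = {0} := rfl
  rw [h6, Φ_indep, hβ, Φ_sum (ph_dseq ε hε) _ _ (lm_pos 1 one_pos)]
  unfold PeK
  rw [Polynomial.eval_finsetSum]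
  refine Finset.sum_congr rfl fun k _ => ?_
  rw [Φ_C_mul, Φ_sum (ph_dseq ε hε) _ _ (lm_pos 1 one_pos), Polynomial.eval_finsetSum,
    Finset.mul_sum]
  refine Finset.sum_congr rfl fun i _ => ?_
  rw [← map_pow, Φ_C_mul, Polynomial.eval_monomial]
  ring

/-- a pointwise limit of polynomials of bounded degree is a polynomial -/
lemma limit_poly' (P : ℕ → Polynomial ℂ) (n : ℕ) (hP : ∀ m, (P m).natDegree ≤ n) (f : ℝ → ℂ)
    (s0 : ℝ)
    (hf : ∀ s : ℝ, s0 ≤ s → Tendsto (fun m => (P m).eval (s:ℂ)) atTop (𝓝 (f s))) :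
    ∃ Q : Polynomial ℂ, ∀ s : ℝ, s0 ≤ s → f s = Q.eval (s:ℂ) := by
  set nd : ℕ → ℂ := fun i => ((s0 + i : ℝ) : ℂ) with hnd
  have hinj : Set.InjOn nd (Finset.range (n+1) : Finset ℕ) := by
    intro i _ j _ hij
    simp only [hnd, Complex.ofReal_inj, add_right_inj, Nat.cast_inj] at hij
    exact hij
  refine ⟨Lagrange.interpolate (Finset.range (n+1)) nd (fun i => f (s0 + i)), fun s hs => ?_⟩
  have h1 : ∀ m, P m = Lagrange.interpolate (Finset.range (n+1)) nd (fun i => (P m).eval (nd i)) := by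
    intro m
    refine Lagrange.eq_interpolate hinj ?_
    rw [Finset.card_range]
    exact lt_of_le_of_lt Polynomial.degree_le_natDegree (by exact_mod_cast Nat.lt_succ_of_le (hP m))
  refine tendsto_nhds_unique (hf s hs) ?_
  have h2 : ∀ m, (P m).eval (s:ℂ) = ∑ i ∈ Finset.range (n+1),
      (P m).eval (nd i) * (Lagrange.basis (Finset.range (n+1)) nd i).eval (s:ℂ) := by
    intro m
    conv_lhs => rw [h1 m]
    rw [Lagrange.interpolate_apply, Polynomial.eval_finsetSum]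
    exact Finset.sum_congr rfl fun i _ => by simp
  simp only [h2]
  rw [Lagrange.interpolate_apply, Polynomial.eval_finsetSum]
  refine tendsto_finsetSum _ fun i _ => ?_
  rw [Polynomial.eval_mul, Polynomial.eval_C]
  exact (hf _ (by have : (0:ℝ) ≤ i := Nat.cast_nonneg i; linarith)).mul_const _

/-- **`p(s) Zt(s)` is a polynomial.** -/
theorem pZt (v : Fin r → Fin N → ℕ) (R : SmoothFan N) (hv0 : ∀ j, v j ≠ 0)
    (hidx : idx v ∅ = 1) (α : ℝ) (p : Polynomial ℂ) (hR : RelM v p)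
    (hk : ∀ (κ : Fin r → ℕ) (i : Fin N), ∑ j, κ j * v j i = 1 →
      kerP v ∈ Ideal.span {p : MvPolynomial (Fin r) ℂ | ∃ j, 0 < v j i ∧ p = X j + C ((κ j : ℕ) : ℂ)})
    (hC : ∀ K : ℝ, 0 < K → ∀ s : ℝ, 0 < s → ∀ J : Finset (Fin r), J.Nonempty →
      Tendsto (fun m : ℕ => ∫ x, integ v K α s J m x
        ∂(Measure.pi (ms (∅ : Finset (Fin (N+1)))))) atTop (𝓝 (limJ v R α s J))) :
    ∃ (Q : Polynomial ℂ) (s0 : ℝ), 0 < s0 ∧ ∀ s : ℝ, s0 ≤ s →
      p.eval (s : ℂ) * Zt v R α s = Q.eval (s : ℂ) := by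
  obtain ⟨K0, s0, hK0, hs0, hkill⟩ := killsK v p hR (kerP v) hk
  set K : ℝ := (1 + |α|) * K0 + 1 with hK
  have hKpos : 0 < K := by positivity
  obtain ⟨Q, hQ⟩ := limit_poly'
    (fun m => PeK v (yz v K α m) (dl m ^ 2) (kerP v) p) p.natDegree
    (fun m => PeK_natDegree _ _ _ _ _) (fun s => p.eval (s : ℂ) * Zt v R α s) s0 (by
      intro s hs
      have hs' : 0 < s := hs0.trans_le hs
      have h1 := (ker_lim v R hv0 hidx K α s hs' (fun J hJ => hC K hKpos s hs' J hJ)).const_mul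
        (p.eval (s : ℂ))
      refine h1.congr fun m => ?_
      refine PeK_eval v _ _ _ p s (pow_pos (dl_pos m) 2) hs' ?_
      rw [yz_eq]
      refine hkill _ (pow_pos (dl_pos m) 2) _ _ ?_ s hs
      have hd := dl_pos m
      have hd1 := dl_le m
      rw [abs_mul, abs_of_pos hd, hK]
      have h2 : dl m ^ 2 ≤ dl m := by nlinarith
      have h3 : (dl m ^ 2 + |α| * dl m) * K0 ≤ (dl m + |α| * dl m) * K0 :=
        mul_le_mul_of_nonneg_right (by linarith) hK0
      nlinarith)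
  exact ⟨Q, s0, hs0, fun s hs => hQ s hs⟩

end Pool.Agent.W425.SM
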