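import Pool.Agent.W425.SM.Main
import Pool.Agent.W525.SM.A
import Pool.Agent.W655.SM.C4K
import Pool.Agent.W375.SM.C1
import Pool.Agent.W349.SM.C
import Pool.Agent.W655.SM.C3

set_option autoImplicit false

namespace Pool.Agent.W425.SM

open MvPolynomial Pool.Agent.H628R4.TZ Pool.Agent.H628R4.TP MeasureTheory Filter Topology

variable {r N : ℕ}

lemma Ind.injective {v : Fin r → Fin N → ℕ} (hv : Ind v) : Function.Injective v := by
  intro j j' h
  exact AffineIndependent.injective hv (by simp [h])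

/-- the convergence needed in `main_gen` -/
lemma conv_all [NeZero r] (v : Fin r → Fin N → ℕ) (hv : Ind v) (R : SmoothFan N)
    (hR : Principal v R) (α : ℝ) (hα : α ≠ 0) (K : ℝ) (hK : 0 < K) (s : ℝ) (hs : 0 < s)
    (J : Finset (Fin r)) (hJ : J.Nonempty) :
    Tendsto (fun m : ℕ => ∫ x, integ v K α s J m x
        ∂(Measure.pi (ms (∅ : Finset (Fin (N+1)))))) atTop (𝓝 (limJ v R α s J)) := by
  obtain ⟨d, Θ, θ, hA, hI⟩ := Pool.Agent.W375.SM.taskC1 v R J hv hJ
  rw [← Pool.Agent.W655.SM.taskC3 v R hv hR α s hα hs J hJ d Θ θ hA hI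
    (Pool.Agent.W655.SM.taskC4 v J hv).1]
  exact Pool.Agent.W349.SM.taskC2 v hv K α s hK hα hs J d Θ θ hA

open Polynomial in
/-- General form, for `α > 0` (global) and `α < 0` (cones meeting the open orthant). -/
theorem main_rel [NeZero r] (v : Fin r → Fin N → ℕ) (hv : Ind v)
    (hv0 : ∀ j, v j ≠ 0) (R : SmoothFan N) (hR : Principal v R) (α : ℝ) (hα : α ≠ 0)
    (p : ℂ[X]) (hp : RelM v p) :
    ∃ P : ℂ[X], algebraMap ℂ[X] (RatFunc ℂ) ((Polynomial.X + 1) * p) * topZ v R α =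
      algebraMap ℂ[X] (RatFunc ℂ) P :=
  main_gen v hv.injective hv0 R hR
    (fun J hJ => (Pool.Agent.W655.SM.taskC4 v J hv).2.1 hJ)
    ((Pool.Agent.W655.SM.taskC4 v ∅ hv).2.2 rfl)
    (fun J => (Pool.Agent.W655.SM.taskC4 v J hv).1) α p hp
    (fun κ i h => Pool.Agent.W655.SM.taskK v κ i h)
    (fun K hK s hs J hJ => conv_all v hv R hR α hα K hK s hs J hJ)

lemma topZ_one (v : Fin r → Fin N → ℕ) (R : SmoothFan N) : topZ v R 1 = topZetaSparse v R := by
  classical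
  unfold topZ topZetaSparse
  refine Finset.sum_congr ?_ fun _ _ => rfl
  refine Finset.filter_true_of_mem fun σ _ => ?_
  exact Or.inl one_pos

open Polynomial in
theorem main (hr : 2 ≤ r) (v : Fin r → Fin N → ℕ) (a : Fin r → ℂ)
    (hv : AffineIndependent ℚ (fun j => (fun i => (v j i : ℚ) : Fin N → ℚ)))
    (hv0 : ∀ j, v j ≠ 0) (ha : ∀ j, a j ≠ 0) (R : SmoothFan N) (hR : Principal v R)
    (b : ℂ[X]) (hb : IsBFunction (sparse v a) b) :
    ∃ P : ℂ[X], algebraMap ℂ[X] (RatFunc ℂ) b * topZetaSparse v R =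
      algebraMap ℂ[X] (RatFunc ℂ) P := by
  have : NeZero r := ⟨by omega⟩
  obtain ⟨p, rfl, hp⟩ := Pool.Agent.W525.SM.taskA v a b hr hv ha hb
  rw [← topZ_one]
  exact main_rel v hv hv0 R hR 1 one_ne_zero p hp

end Pool.Agent.W425.SM
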