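import Pool.Agent.W425.SM.Pol

set_option autoImplicit false

namespace Pool.Agent.W425.SM

open MvPolynomial Pool.Agent.H628R4.TZ Pool.Agent.H628R4.TP MeasureTheory Set Filter Topology

variable {r N : ℕ}

lemma minSet_nonempty [NeZero r] (v : Fin r → Fin N → ℕ) (R : SmoothFan N) (hR : Principal v R)
    (σ : Finset (Fin N → ℕ)) (hσ : σ ∈ R.cones) : (minSet v σ).Nonempty := by
  obtain ⟨j, hj⟩ := hR σ hσ
  refine ⟨j, ?_⟩
  simp only [minSet, Finset.mem_filter, Finset.mem_univ, true_and]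
  intro ρ hρ
  exact (ord_eq ρ j (hj ρ hρ)).symm

lemma ray_sum_pos (R : SmoothFan N) (σ : Finset (Fin N → ℕ)) (hσ : σ ∈ R.cones)
    (ρ : Fin N → ℕ) (hρ : ρ ∈ σ) : 0 < ∑ l, ρ l := by
  obtain ⟨B, hB, hrow⟩ := R.smooth σ hσ
  obtain ⟨i, hi⟩ := hrow ρ hρ
  by_contra h
  have h1 : ∀ l, ρ l = 0 := by
    have h2 : ∑ l, ρ l = 0 := by omega
    intro l
    exact (Finset.sum_eq_zero_iff.1 h2) l (Finset.mem_univ _)
  rw [Matrix.det_eq_zero_of_row_eq_zero i (fun l => by rw [hi l, h1 l]; rfl)] at hB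
  simp at hB

/-- a full-dimensional cone separates integer vectors -/
lemma full_sep (R : SmoothFan N) (σ : Finset (Fin N → ℕ)) (hσ : σ ∈ R.cones) (hc : σ.card = N)
    (d : Fin N → ℤ) (hd : ∀ ρ ∈ σ, ∑ l, (ρ l : ℤ) * d l = 0) : d = 0 := by
  classical
  obtain ⟨B, hB, hrow⟩ := R.smooth σ hσ
  choose f hf using fun ρ : σ => hrow ρ ρ.2
  have hinj : Function.Injective f := by
    intro ρ ρ' h
    apply Subtype.ext
    funext l
    have h1 := hf ρ l
    have h2 := hf ρ' l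
    rw [h] at h1
    rw [h1] at h2
    exact_mod_cast h2
  have hsurj : Function.Surjective f := by
    have : Fintype.card σ = Fintype.card (Fin N) := by simp [hc]
    exact ((Fintype.bijective_iff_injective_and_card f).2 ⟨hinj, this⟩).2
  refine Matrix.eq_zero_of_mulVec_eq_zero (M := B) hB.ne_zero ?_
  funext i
  obtain ⟨ρ, rfl⟩ := hsurj i
  simp only [Matrix.mulVec, dotProduct, Pi.zero_apply]
  rw [← hd ρ ρ.2]
  exact Finset.sum_congr rfl fun l _ => by rw [hf ρ l]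

lemma full_minSet [NeZero r] (v : Fin r → Fin N → ℕ) (hv : Function.Injective v)
    (R : SmoothFan N) (hR : Principal v R) (σ : Finset (Fin N → ℕ)) (hσ : σ ∈ R.cones)
    (hc : σ.card = N) : (minSet v σ).card = 1 := by
  refine le_antisymm ?_ (minSet_nonempty v R hR σ hσ).card_pos
  rw [Finset.card_le_one]
  intro j hj j' hj'
  apply hv
  have h := full_sep R σ hσ hc (fun l => (v j l : ℤ) - v j' l) (by
    intro ρ hρ
    simp only [minSet, Finset.mem_filter, Finset.mem_univ, true_and] at hj hj'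
    have h1 := hj ρ hρ
    have h2 := hj' ρ hρ
    rw [← h2] at h1
    simp only [mul_sub, Finset.sum_sub_distrib]
    rw [sub_eq_zero]
    exact_mod_cast h1)
  funext l
  have := congrFun h l
  simp only [Pi.zero_apply] at this
  omega

lemma full_ord [NeZero r] (v : Fin r → Fin N → ℕ) (hv0 : ∀ j, v j ≠ 0)
    (R : SmoothFan N) (hR : Principal v R) (σ : Finset (Fin N → ℕ)) (hσ : σ ∈ R.cones)
    (hc : σ.card = N) : ∃ ρ ∈ σ, ordAlong v ρ ≠ 0 := by
  by_contra hcon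
  push Not at hcon
  obtain ⟨j, hj⟩ := minSet_nonempty v R hR σ hσ
  simp only [minSet, Finset.mem_filter, Finset.mem_univ, true_and] at hj
  apply hv0 j
  have h := full_sep R σ hσ hc (fun l => (v j l : ℤ)) (by
    intro ρ hρ
    have h1 := hj ρ hρ
    rw [hcon ρ hρ] at h1
    exact_mod_cast h1)
  funext l
  have := congrFun h l
  simp only [Pi.zero_apply] at this
  exact_mod_cast this

/-- the weight of a cone -/
noncomputable def wc (v : Fin r → Fin N → ℕ) (σ : Finset (Fin N → ℕ)) (s : ℝ) : ℂ :=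
  ∏ ρ ∈ σ, ((ordAlong v ρ : ℂ) * s + ((∑ l, ρ l : ℕ) : ℂ))⁻¹

open Classical in
lemma sum_limJ_one [NeZero r] (v : Fin r → Fin N → ℕ) (R : SmoothFan N) (hR : Principal v R)
    (hidx : ∀ J, J.card = 1 → idx v J = 1) (α s : ℝ) :
    ∑ j : Fin r, limJ v R α s {j} = ∑ σ ∈ R.cones,
      if (minSet v σ).card = 1 ∧ σ.card + (minSet v σ).card = N + 1 ∧ Inc α σ ∧
        (∃ ρ ∈ σ, ordAlong v ρ ≠ 0) then wc v σ s else 0 := by
  unfold limJ
  rw [Finset.sum_comm]
  refine Finset.sum_congr rfl fun σ _ => ?_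
  by_cases h1 : (minSet v σ).card = 1
  · obtain ⟨j0, hj0⟩ := Finset.card_eq_one.1 h1
    rw [Finset.sum_eq_single j0]
    · rw [hj0, hidx {j0} (Finset.card_singleton _)]
      simp [wc]
    · intro j _ hj
      rw [if_neg]
      rintro ⟨h2, _⟩
      rw [hj0, Finset.singleton_inj] at h2
      exact hj h2.symm
    · intro h; exact absurd (Finset.mem_univ _) h
  · rw [if_neg (fun h => h1 h.1)]
    refine Finset.sum_eq_zero fun j _ => if_neg ?_
    rintro ⟨h2, _⟩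
    rw [h2, Finset.card_singleton] at h1
    exact h1 rfl

open Classical in
lemma sum_limJ_all [NeZero r] (v : Fin r → Fin N → ℕ) (R : SmoothFan N) (hR : Principal v R)
    (hidx : ∀ J, idx v J ≠ 0) (α s : ℝ) :
    ∑ J ∈ (Finset.univ : Finset (Finset (Fin r))).filter (fun J => J.Nonempty),
      (idx v J : ℂ) ^ 2 * ((-1) ^ J.card * limJ v R α s J) = ∑ σ ∈ R.cones,
      if σ.card + (minSet v σ).card = N + 1 ∧ Inc α σ ∧
        (∃ ρ ∈ σ, ordAlong v ρ ≠ 0) then (-1) ^ (minSet v σ).card * (idx v (minSet v σ) : ℂ) *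
          wc v σ s else 0 := by
  unfold limJ
  simp only [Finset.mul_sum]
  rw [Finset.sum_comm]
  refine Finset.sum_congr rfl fun σ hσ => ?_
  rw [Finset.sum_eq_single (minSet v σ)]
  · have h1 : (idx v (minSet v σ) : ℂ) ≠ 0 := by exact_mod_cast hidx _
    by_cases h : σ.card + (minSet v σ).card = N + 1 ∧ Inc α σ ∧ (∃ ρ ∈ σ, ordAlong v ρ ≠ 0)
    · rw [if_pos ⟨rfl, h⟩, if_pos h, wc]
      have h2 : (idx v (minSet v σ) : ℂ) ^ 2 * (idx v (minSet v σ) : ℂ)⁻¹ =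
          (idx v (minSet v σ) : ℂ) := by rw [pow_two, mul_assoc, mul_inv_cancel₀ h1, mul_one]
      calc _ = (-1 : ℂ) ^ (minSet v σ).card *
            ((idx v (minSet v σ) : ℂ) ^ 2 * (idx v (minSet v σ) : ℂ)⁻¹) *
            ∏ ρ ∈ σ, ((ordAlong v ρ : ℂ) * s + ((∑ l, ρ l : ℕ) : ℂ))⁻¹ := by ring
        _ = _ := by rw [h2]
    · rw [if_neg (fun h' => h h'.2), if_neg h]
      simp
  · intro J _ hJ
    rw [if_neg (fun h => hJ h.1.symm)]
    simp
  · intro h
    exact absurd (Finset.mem_filter.2 ⟨Finset.mem_univ _, minSet_nonempty v R hR σ hσ⟩) h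

open Classical in
/-- the contribution of the cones with `ord ρ ≠ 0` for some ray -/
lemma s_Zt [NeZero r] (v : Fin r → Fin N → ℕ) (hv : Function.Injective v) (hv0 : ∀ j, v j ≠ 0)
    (R : SmoothFan N) (hR : Principal v R)
    (hidx1 : ∀ J, J.card = 1 → idx v J = 1) (hidx : ∀ J, idx v J ≠ 0) (α s : ℝ) (hs : 0 < s) :
    (s : ℂ) * Zt v R α s = 1 - ∑ σ ∈ R.cones.filter (Inc α),
      (if ∃ ρ ∈ σ, ordAlong v ρ ≠ 0 then ((s + 1) * ((chiO σ : ℤ) : ℂ) - s * ((chiH v σ : ℤ) : ℂ)) *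
        wc v σ s else 0) := by
  have hsC : (s : ℂ) ≠ 0 := by exact_mod_cast hs.ne'
  unfold Zt
  rw [mul_add, mul_div_cancel₀ _ hsC, sum_limJ_one v R hR hidx1, sum_limJ_all v R hR hidx,
    Finset.mul_sum, Finset.sum_filter, sub_add, ← Finset.sum_sub_distrib]
  congr 1
  refine Finset.sum_congr rfl fun σ hσ => ?_
  by_cases hI : Inc α σ
  swap
  · rw [if_neg (fun h => hI h.2.2.1), if_neg (fun h => hI h.2.1), if_neg hI]; simp
  rw [if_pos hI]
  by_cases hE : ∃ ρ ∈ σ, ordAlong v ρ ≠ 0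
  swap
  · rw [if_neg (fun h => hE h.2.2.2), if_neg (fun h => hE h.2.2), if_neg hE]; simp
  rw [if_pos hE]
  have hpos := (minSet_nonempty v R hR σ hσ).card_pos
  by_cases hcard : σ.card + (minSet v σ).card = N + 1
  · by_cases h1 : (minSet v σ).card = 1
    · have hN : σ.card = N := by omega
      rw [if_pos ⟨h1, hcard, hI, hE⟩, if_pos ⟨hcard, hI, hE⟩, hidx1 _ h1, h1]
      unfold chiO chiH
      rw [if_pos hN, if_neg (by omega)]
      push_cast
      ring
    · have hN : σ.card ≠ N := by omega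
      rw [if_neg (fun h => h1 h.1), if_pos ⟨hcard, hI, hE⟩]
      unfold chiO chiH
      rw [if_neg hN, if_pos ⟨by omega, hcard⟩]
      push_cast
      ring
  · have hN : σ.card ≠ N := fun h => hcard (by rw [full_minSet v hv R hR σ hσ h, h])
    rw [if_neg (fun h => hcard h.2.1), if_neg (fun h => hcard h.1)]
    unfold chiO chiH
    rw [if_neg hN, if_neg (fun h => hcard h.2)]
    simp

/-! ### Rational functions and their values -/

open Polynomial in
/-- `z` is a rational function with values `F s` at the positive reals -/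
def Rp (z : RatFunc ℂ) (F : ℝ → ℂ) : Prop :=
  ∃ A D : ℂ[X], (∀ s : ℝ, 0 < s → D.eval (s : ℂ) ≠ 0) ∧
    z * algebraMap ℂ[X] (RatFunc ℂ) D = algebraMap ℂ[X] (RatFunc ℂ) A ∧
    ∀ s : ℝ, 0 < s → F s * D.eval (s : ℂ) = A.eval (s : ℂ)

open Polynomial in
lemma Rp.poly (P : ℂ[X]) : Rp (algebraMap ℂ[X] (RatFunc ℂ) P) (fun s => P.eval (s : ℂ)) :=
  ⟨P, 1, fun s _ => by simp, by simp, fun s _ => by simp⟩

lemma Rp.const (c : ℤ) : Rp (c : RatFunc ℂ) (fun _ => (c : ℂ)) := by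
  have := Rp.poly (Polynomial.C (c : ℂ))
  simpa using this

lemma Rp.add {z z' : RatFunc ℂ} {F F' : ℝ → ℂ} (h : Rp z F) (h' : Rp z' F') :
    Rp (z + z') (fun s => F s + F' s) := by
  obtain ⟨A, D, h1, h2, h3⟩ := h
  obtain ⟨A', D', h1', h2', h3'⟩ := h'
  refine ⟨A * D' + A' * D, D * D', fun s hs => ?_, ?_, fun s hs => ?_⟩
  · rw [Polynomial.eval_mul]; exact mul_ne_zero (h1 s hs) (h1' s hs)
  · rw [map_mul, map_add, map_mul, map_mul, ← h2, ← h2']; ring
  · rw [Polynomial.eval_mul, Polynomial.eval_add, Polynomial.eval_mul, Polynomial.eval_mul,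
      ← h3 s hs, ← h3' s hs]; ring

lemma Rp.mul {z z' : RatFunc ℂ} {F F' : ℝ → ℂ} (h : Rp z F) (h' : Rp z' F') :
    Rp (z * z') (fun s => F s * F' s) := by
  obtain ⟨A, D, h1, h2, h3⟩ := h
  obtain ⟨A', D', h1', h2', h3'⟩ := h'
  refine ⟨A * A', D * D', fun s hs => ?_, ?_, fun s hs => ?_⟩
  · rw [Polynomial.eval_mul]; exact mul_ne_zero (h1 s hs) (h1' s hs)
  · rw [map_mul, map_mul, ← h2, ← h2']; ring
  · rw [Polynomial.eval_mul, Polynomial.eval_mul, ← h3 s hs, ← h3' s hs]; ring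

lemma Rp.sum {ι : Type*} (t : Finset ι) (z : ι → RatFunc ℂ) (F : ι → ℝ → ℂ)
    (h : ∀ i ∈ t, Rp (z i) (F i)) : Rp (∑ i ∈ t, z i) (fun s => ∑ i ∈ t, F i s) := by
  classical
  induction t using Finset.induction_on with
  | empty => simpa using Rp.const 0
  | insert a t ha ih =>
    simp only [Finset.sum_insert ha]
    exact (h a (by simp)).add (ih fun i hi => h i (by simp [hi]))

lemma Rp.prod {ι : Type*} (t : Finset ι) (z : ι → RatFunc ℂ) (F : ι → ℝ → ℂ)
    (h : ∀ i ∈ t, Rp (z i) (F i)) : Rp (∏ i ∈ t, z i) (fun s => ∏ i ∈ t, F i s) := by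
  classical
  induction t using Finset.induction_on with
  | empty => simpa using Rp.const 1
  | insert a t ha ih =>
    simp only [Finset.prod_insert ha]
    exact (h a (by simp)).mul (ih fun i hi => h i (by simp [hi]))

lemma lin_ne (a b : ℕ) (hb : 0 < b) (s : ℝ) (hs : 0 < s) : ((a : ℂ) * s + (b : ℂ)) ≠ 0 := by
  have h1 : (0:ℝ) < (a : ℝ) * s + b := by
    have : (0:ℝ) < b := by exact_mod_cast hb
    positivity
  have h2 : ((a : ℂ) * s + (b : ℂ)) = (((a : ℝ) * s + b : ℝ) : ℂ) := by push_cast; ring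
  rw [h2]
  exact_mod_cast h1.ne'

lemma Rp.inv_lin (a b : ℕ) (hb : 0 < b) :
    Rp (((a : RatFunc ℂ) * RatFunc.X + (b : RatFunc ℂ))⁻¹) (fun s => ((a : ℂ) * s + (b : ℂ))⁻¹) := by
  set D : Polynomial ℂ := Polynomial.C (a : ℂ) * Polynomial.X + Polynomial.C (b : ℂ) with hD
  have hev : ∀ s : ℝ, D.eval (s : ℂ) = (a : ℂ) * s + (b : ℂ) := fun s => by simp [hD]
  have hD0 : D ≠ 0 := by
    intro h
    have := lin_ne a b hb 1 one_pos
    rw [← hev 1, h] at this
    simp at this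
  have hmap : algebraMap (Polynomial ℂ) (RatFunc ℂ) D = (a : RatFunc ℂ) * RatFunc.X + (b : RatFunc ℂ) := by
    simp [hD, RatFunc.algebraMap_X]
  refine ⟨1, D, fun s hs => ?_, ?_, fun s hs => ?_⟩
  · rw [hev]; exact lin_ne a b hb s hs
  · rw [← hmap, map_one, inv_mul_cancel₀]
    rw [Ne, FaithfulSMul.algebraMap_eq_zero_iff]; exact hD0
  · rw [hev, inv_mul_cancel₀ (lin_ne a b hb s hs)]; simp

lemma Rp.inv_X1 : Rp ((RatFunc.X + 1)⁻¹) (fun s => ((s : ℂ) + 1)⁻¹) := by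
  have := Rp.inv_lin 1 1 one_pos
  simpa using this

open Polynomial in
/-- A rational function whose values times those of `b` agree with a polynomial at all large
reals. -/
lemma Rp.final {z : RatFunc ℂ} {F : ℝ → ℂ} (h : Rp z F) (b P : ℂ[X]) (s0 : ℝ) (hs0 : 0 < s0)
    (hP : ∀ s : ℝ, s0 ≤ s → b.eval (s : ℂ) * F s = P.eval (s : ℂ)) :
    algebraMap ℂ[X] (RatFunc ℂ) b * z = algebraMap ℂ[X] (RatFunc ℂ) P := by
  obtain ⟨A, D, h1, h2, h3⟩ := h
  have hD0 : D ≠ 0 := by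
    rintro rfl
    exact h1 1 one_pos (by simp)
  have hkey : b * A = P * D := by
    refine Polynomial.eq_of_infinite_eval_eq _ _ ?_
    refine ((Set.Ici_infinite s0).image Complex.ofReal_injective.injOn).mono ?_
    rintro _ ⟨s, hs, rfl⟩
    have hs' : s0 ≤ s := hs
    show Polynomial.eval (s:ℂ) (b * A) = Polynomial.eval (s:ℂ) (P * D)
    rw [Polynomial.eval_mul, Polynomial.eval_mul, ← hP s hs', ← h3 s (hs0.trans_le hs')]
    ring
  have hA : algebraMap ℂ[X] (RatFunc ℂ) D ≠ 0 := by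
    rw [Ne, FaithfulSMul.algebraMap_eq_zero_iff]; exact hD0
  refine mul_right_cancel₀ hA ?_
  rw [mul_assoc, h2, ← map_mul, ← map_mul, hkey]

/-- The topological zeta function with the cones satisfying `Inc α`. -/
noncomputable def topZ (v : Fin r → Fin N → ℕ) (R : SmoothFan N) (α : ℝ) : RatFunc ℂ :=
  open Classical in
  ∑ σ ∈ R.cones.filter (Inc α), (((chiO σ - chiH v σ : ℤ) : RatFunc ℂ) +
      ((chiH v σ : ℤ) : RatFunc ℂ) * (RatFunc.X + 1)⁻¹) *
    ∏ ρ ∈ σ, ((ordAlong v ρ : RatFunc ℂ) * RatFunc.X + ((∑ l, ρ l : ℕ) : RatFunc ℂ))⁻¹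

open Classical Polynomial in
/-- **Main theorem, general form.** -/
theorem main_gen [NeZero r] (v : Fin r → Fin N → ℕ) (hv : Function.Injective v)
    (hv0 : ∀ j, v j ≠ 0) (R : SmoothFan N) (hR : Principal v R)
    (hidx1 : ∀ J, J.card = 1 → idx v J = 1) (hidxe : idx v ∅ = 1) (hidx : ∀ J, idx v J ≠ 0)
    (α : ℝ) (p : ℂ[X]) (hp : RelM v p)
    (hk : ∀ (κ : Fin r → ℕ) (i : Fin N), ∑ j, κ j * v j i = 1 →
      kerP v ∈ Ideal.span {p : MvPolynomial (Fin r) ℂ |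
        ∃ j, 0 < v j i ∧ p = MvPolynomial.X j + MvPolynomial.C ((κ j : ℕ) : ℂ)})
    (hC : ∀ K : ℝ, 0 < K → ∀ s : ℝ, 0 < s → ∀ J : Finset (Fin r), J.Nonempty →
      Tendsto (fun m : ℕ => ∫ x, integ v K α s J m x
        ∂(Measure.pi (ms (∅ : Finset (Fin (N+1)))))) atTop (𝓝 (limJ v R α s J))) :
    ∃ P : ℂ[X], algebraMap ℂ[X] (RatFunc ℂ) ((Polynomial.X + 1) * p) * topZ v R α =
      algebraMap ℂ[X] (RatFunc ℂ) P := by
  obtain ⟨Q, s0, hs0, hQ⟩ := pZt v R hv0 hidxe α p hp hk hC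
  -- values of the zeta function
  set F : ℝ → ℂ := fun s => ∑ σ ∈ R.cones.filter (Inc α),
    (((chiO σ - chiH v σ : ℤ) : ℂ) + ((chiH v σ : ℤ) : ℂ) * ((s : ℂ) + 1)⁻¹) * wc v σ s with hF
  have hRp : Rp (topZ v R α) F := by
    unfold topZ
    refine Rp.sum _ _ _ fun σ hσ => ?_
    refine ((Rp.const _).add ((Rp.const _).mul Rp.inv_X1)).mul ?_
    unfold wc
    refine Rp.prod _ _ _ fun ρ hρ => ?_
    exact Rp.inv_lin _ _ (ray_sum_pos R σ (Finset.mem_filter.1 hσ).1 ρ hρ)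
  set A : ℂ := ∑ σ ∈ R.cones.filter (Inc α), (if ∃ ρ ∈ σ, ordAlong v ρ ≠ 0 then 0 else
    ((chiH v σ : ℤ) : ℂ) * ∏ ρ ∈ σ, (((∑ l, ρ l : ℕ) : ℂ))⁻¹) with hA
  refine ⟨p * (1 - Polynomial.X * Polynomial.C A) - Polynomial.X * Q,
    hRp.final _ _ s0 hs0 fun s hs => ?_⟩
  have hs' : 0 < s := hs0.trans_le hs
  have hs1 : (s : ℂ) + 1 ≠ 0 := by
    have := lin_ne 1 1 one_pos s hs'
    simpa using this
  have h1 := hQ s hs
  have h2 := s_Zt v hv hv0 R hR hidx1 hidx α s hs'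
  have h3 : ((s : ℂ) + 1) * F s = (1 - (s : ℂ) * Zt v R α s) - s * A := by
    rw [h2, hF, hA, Finset.mul_sum, Finset.mul_sum, sub_sub_cancel, ← Finset.sum_sub_distrib]
    refine Finset.sum_congr rfl fun σ hσ => ?_
    have h4 : ((s : ℂ) + 1) * ((((chiO σ - chiH v σ : ℤ) : ℂ) +
        ((chiH v σ : ℤ) : ℂ) * ((s : ℂ) + 1)⁻¹) * wc v σ s) =
        ((s + 1) * ((chiO σ : ℤ) : ℂ) - s * ((chiH v σ : ℤ) : ℂ)) * wc v σ s := by
      push_cast
      field_simp
      ring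
    rw [h4]
    by_cases hE : ∃ ρ ∈ σ, ordAlong v ρ ≠ 0
    · rw [if_pos hE, if_pos hE, mul_zero, sub_zero]
    · rw [if_neg hE, if_neg hE]
      have hN : σ.card ≠ N := fun h => hE (full_ord v hv0 R hR σ (Finset.mem_filter.1 hσ).1 h)
      have h5 : wc v σ s = ∏ ρ ∈ σ, (((∑ l, ρ l : ℕ) : ℂ))⁻¹ := by
        unfold wc
        refine Finset.prod_congr rfl fun ρ hρ => ?_
        push Not at hE
        rw [hE ρ hρ]
        simp
      rw [h5, chiO, if_neg hN]
      push_cast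
      ring
  rw [Polynomial.eval_mul, Polynomial.eval_sub, Polynomial.eval_mul, Polynomial.eval_sub,
    Polynomial.eval_mul, Polynomial.eval_mul, Polynomial.eval_X, Polynomial.eval_C,
    Polynomial.eval_add, Polynomial.eval_X, Polynomial.eval_one, ← h1]
  linear_combination (p.eval (s : ℂ)) * h3

end Pool.Agent.W425.SM
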