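import Pool.Agent.W425.SM.Seq

set_option autoImplicit false

namespace Pool.Agent.W425.SM

open MvPolynomial Pool.Agent.H628R4.TZ Pool.Agent.H628R4.TP MeasureTheory Set Filter Topology

variable {r N : ℕ}

noncomputable def WW (ψ : Fin r → ℕ → ℝ → ℝ) (k : Fin r →₀ ℕ) (y : Fin r → ℝ) : ℝ :=
  ∏ j, ψ j (k j) (y j)

noncomputable def DD (ψ : Fin r → ℕ → ℝ → ℝ) (y : Fin r → ℝ) : MvPolynomial (Fin r) ℂ →ₗ[ℂ] ℂ :=
  (basisMonomials (Fin r) ℂ).constr ℂ (fun k => ((WW ψ k y : ℝ) : ℂ))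

lemma DD_monomial (ψ : Fin r → ℕ → ℝ → ℝ) (y : Fin r → ℝ) (k : Fin r →₀ ℕ) (a : ℂ) :
    DD ψ y (monomial k a) = a * (WW ψ k y : ℝ) := by
  have h : (monomial k a : MvPolynomial (Fin r) ℂ) = a • (basisMonomials (Fin r) ℂ k) := by
    simp [coe_basisMonomials, smul_monomial]
  rw [h, map_smul, DD, Module.Basis.constr_basis, smul_eq_mul]

/-- the family of sequences for `κ` -/
noncomputable def pk (ε : ℝ) (κ : Fin r → ℕ) : Fin r → ℕ → ℝ → ℝ := fun j => ps ε (κ j)

lemma WW_cont (ε : ℝ) (hε : 0 < ε) (κ : Fin r → ℕ) (k : Fin r →₀ ℕ) :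
    Continuous (WW (pk ε κ) k) := by
  unfold WW pk
  exact continuous_finsetProd _ fun j _ => (ps_cont ε hε _ _).comp (continuous_apply j)

lemma DD_cont (ε : ℝ) (hε : 0 < ε) (κ : Fin r → ℕ) (p : MvPolynomial (Fin r) ℂ) :
    Continuous (fun y => DD (pk ε κ) y p) := by
  induction p using MvPolynomial.induction_on' with
  | monomial u a =>
    simp only [DD_monomial]
    exact continuous_const.mul (Complex.continuous_ofReal.comp (WW_cont ε hε κ u))
  | add p q hp hq => simp only [map_add]; exact hp.add hq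

lemma DD_neg (ε : ℝ) (hε : 0 < ε) (κ : Fin r → ℕ) (y : Fin r → ℝ) (m : Fin r) (hm : y m < 0)
    (p : MvPolynomial (Fin r) ℂ) : DD (pk ε κ) y p = 0 := by
  induction p using MvPolynomial.induction_on' with
  | monomial u a =>
    rw [DD_monomial]
    have : WW (pk ε κ) u y = 0 := by
      unfold WW
      exact Finset.prod_eq_zero (Finset.mem_univ m) (ps_neg ε hε _ _ _ hm)
    rw [this]; simp
  | add p q hp hq => rw [map_add, hp, hq, add_zero]

lemma WW_growth (ε : ℝ) (hε : 0 < ε) (κ : Fin r → ℕ) (k : Fin r →₀ ℕ) :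
    ∃ C, 0 ≤ C ∧ ∀ y, |WW (pk ε κ) k y| ≤ C * Real.exp (∑ j, (κ j : ℝ) * y j) := by
  choose C hC0 hC using fun j => ps_growth ε hε (κ j) (k j)
  refine ⟨∏ j, C j, Finset.prod_nonneg fun j _ => hC0 j, fun y => ?_⟩
  unfold WW
  rw [Finset.abs_prod, Real.exp_sum, ← Finset.prod_mul_distrib]
  exact Finset.prod_le_prod (fun _ _ => abs_nonneg _) fun j _ => hC j _

lemma DD_growth (ε : ℝ) (hε : 0 < ε) (κ : Fin r → ℕ) (p : MvPolynomial (Fin r) ℂ) :
    ∃ C, 0 ≤ C ∧ ∀ y, ‖DD (pk ε κ) y p‖ ≤ C * Real.exp (∑ j, (κ j : ℝ) * y j) := by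
  induction p using MvPolynomial.induction_on' with
  | monomial u a =>
    obtain ⟨C, hC0, hC⟩ := WW_growth ε hε κ u
    refine ⟨‖a‖ * C, by positivity, fun y => ?_⟩
    rw [DD_monomial, norm_mul, Complex.norm_real, mul_assoc]
    exact mul_le_mul_of_nonneg_left (hC y) (norm_nonneg _)
  | add p q hp hq =>
    obtain ⟨C, hC0, hC⟩ := hp
    obtain ⟨C', hC0', hC'⟩ := hq
    refine ⟨C + C', by positivity, fun y => ?_⟩
    rw [map_add, add_mul]
    exact (norm_add_le _ _).trans (add_le_add (hC y) (hC' y))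

lemma WW_split (ψ : Fin r → ℕ → ℝ → ℝ) (k : Fin r →₀ ℕ) (y : Fin r → ℝ) (j : Fin r) :
    WW ψ k y = ψ j (k j) (y j) * ∏ i ∈ Finset.univ.erase j, ψ i (k i) (y i) := by
  unfold WW
  rw [Finset.mul_prod_erase Finset.univ (fun i => ψ i (k i) (y i)) (Finset.mem_univ j)]

lemma WW_succ (ψ : Fin r → ℕ → ℝ → ℝ) (k : Fin r →₀ ℕ) (y : Fin r → ℝ) (j : Fin r) :
    WW ψ (k + Finsupp.single j 1) y =
      ψ j (k j + 1) (y j) * ∏ i ∈ Finset.univ.erase j, ψ i (k i) (y i) := by
  rw [WW_split _ _ _ j]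
  congr 1
  · simp
  · refine Finset.prod_congr rfl fun i hi => ?_
    rw [Finsupp.add_apply, Finsupp.single_eq_of_ne (Finset.ne_of_mem_erase hi), add_zero]

lemma DD_hasDerivAt (ε : ℝ) (hε : 0 < ε) (κ : Fin r → ℕ) (p : MvPolynomial (Fin r) ℂ)
    (a : Fin r → ℝ) (y : ℝ → Fin r → ℝ) (t : ℝ) (hy : ∀ j, HasDerivAt (fun t => y t j) (a j) t) :
    HasDerivAt (fun t => DD (pk ε κ) (y t) p) (-(DD (pk ε κ) (y t) (Lf a * p))) t := by
  induction p using MvPolynomial.induction_on' with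
  | monomial u c =>
    have h1 : HasDerivAt (fun t => WW (pk ε κ) u (y t))
        (∑ j, (∏ i ∈ Finset.univ.erase j, (pk ε κ) i (u i) (y t i)) •
          (-((pk ε κ) j (u j + 1) (y t j)) * a j)) t := by
      unfold WW
      exact HasDerivAt.fun_finsetProd fun j _ => (ps_deriv ε hε (κ j) (u j) (y t j)).comp t (hy j)
    have h2 := (h1.ofReal_comp).const_mul c
    simp only [DD_monomial]
    refine h2.congr_deriv ?_
    have h3 : Lf a * monomial u c = ∑ j, monomial (u + Finsupp.single j 1) (c * (a j : ℝ)) := by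
      unfold Lf
      rw [Finset.sum_mul]
      refine Finset.sum_congr rfl fun j _ => ?_
      rw [C_mul_X_eq_monomial, monomial_mul]
      congr 1
      · rw [add_comm]
      · ring
    rw [h3, map_sum, ← Finset.sum_neg_distrib]
    push_cast
    rw [Finset.mul_sum]
    refine Finset.sum_congr rfl fun j _ => ?_
    rw [DD_monomial, WW_succ]
    simp only [smul_eq_mul]
    push_cast
    ring
  | add p q hp hq =>
    simp only [map_add, mul_add]
    refine (hp.add hq).congr_deriv ?_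
    ring

/-- The factor `X_j + κ_j` kills the tail. -/
lemma DD_tail (ε : ℝ) (hε : 0 < ε) (κ : Fin r → ℕ) (y : Fin r → ℝ) (j : Fin r) (hj : ε < y j)
    (p : MvPolynomial (Fin r) ℂ) :
    DD (pk ε κ) y ((X j + C ((κ j : ℕ) : ℂ)) * p) = 0 := by
  induction p using MvPolynomial.induction_on' with
  | monomial u a =>
    have h1 : (X j + C ((κ j : ℕ) : ℂ)) * monomial u a =
        monomial (u + Finsupp.single j 1) a + monomial u (((κ j : ℕ) : ℂ) * a) := by
      rw [add_mul, X, monomial_mul, C_mul_monomial, one_mul, add_comm u]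
    rw [h1, map_add, DD_monomial, DD_monomial, WW_succ, WW_split _ _ _ j]
    have h2 := ps_tail ε hε (κ j) (u j) (y j) hj
    have h3 : (((ps ε (κ j) (u j + 1) (y j) + (κ j : ℝ) * ps ε (κ j) (u j) (y j) : ℝ)) : ℂ) = 0 := by
      rw [h2]; simp
    push_cast at h3 ⊢
    simp only [pk]
    linear_combination (a * ∏ i ∈ Finset.univ.erase j, ((ps ε (κ i) (u i) (y i) : ℝ) : ℂ)) * h3
  | add p q hp hq => rw [mul_add, map_add, hp, hq, add_zero]

lemma DD_ph (φ : ℕ → ℝ → ℝ) (y : Fin r → ℝ) (p : MvPolynomial (Fin r) ℂ) :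
    DD (fun _ => φ) y p = D φ y p := by
  induction p using MvPolynomial.induction_on' with
  | monomial u a => rw [DD_monomial, D_monomial]; rfl
  | add p q hp hq => rw [map_add, map_add, hp, hq]

/-- one variable -/
noncomputable def T1 (φ : ℕ → ℝ → ℝ) (y : ℝ) : Polynomial ℂ →ₗ[ℂ] ℂ :=
  (Polynomial.basisMonomials ℂ).constr ℂ (fun k => ((φ k y : ℝ) : ℂ))

lemma T1_monomial (φ : ℕ → ℝ → ℝ) (y : ℝ) (k : ℕ) (a : ℂ) :
    T1 φ y (Polynomial.monomial k a) = a * (φ k y : ℝ) := by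
  have h : (Polynomial.monomial k a : Polynomial ℂ) = a • (Polynomial.basisMonomials ℂ k) := by
    simp [Polynomial.coe_basisMonomials, Polynomial.smul_monomial]
  rw [h, map_smul, T1, Module.Basis.constr_basis, smul_eq_mul]

lemma T1_eq (φ : ℕ → ℝ → ℝ) (y : ℝ) (P : Polynomial ℂ) (n : ℕ) (hn : P.natDegree < n) :
    T1 φ y P = ∑ k ∈ Finset.range n, P.coeff k * (φ k y : ℝ) := by
  conv_lhs => rw [P.as_sum_range' n hn]
  rw [map_sum]
  exact Finset.sum_congr rfl fun k _ => T1_monomial _ _ _ _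

lemma DD_prod (ψ : Fin r → ℕ → ℝ → ℝ) (y : Fin r → ℝ) (P : Fin r → Polynomial ℂ) :
    DD ψ y (∏ j, Polynomial.aeval (X j : MvPolynomial (Fin r) ℂ) (P j)) =
      ∏ j, T1 (ψ j) (y j) (P j) := by
  set n := (∑ j, (P j).natDegree) + 1 with hn
  have hnj : ∀ j, (P j).natDegree < n := fun j => by
    have := Finset.single_le_sum (f := fun j => (P j).natDegree) (fun _ _ => Nat.zero_le _)
      (Finset.mem_univ j)
    omega
  have h1 : ∀ j, Polynomial.aeval (X j : MvPolynomial (Fin r) ℂ) (P j) =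
      ∑ k ∈ Finset.range n, C ((P j).coeff k) * X j ^ k := by
    intro j
    rw [Polynomial.aeval_eq_sum_range' (hnj j)]
    exact Finset.sum_congr rfl fun k _ => by rw [C_mul']
  simp only [h1, fun j => T1_eq (ψ j) (y j) (P j) n (hnj j)]
  rw [Finset.prod_univ_sum, Finset.prod_univ_sum, map_sum]
  refine Finset.sum_congr rfl fun k _ => ?_
  have h2 : (∏ j, C ((P j).coeff (k j)) * X j ^ k j : MvPolynomial (Fin r) ℂ) =
      monomial (Finsupp.equivFunOnFinite.symm k) (∏ j, (P j).coeff (k j)) := by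
    rw [Finset.prod_mul_distrib, ← map_prod, monomial_eq, Finsupp.prod_fintype _ _ (by simp)]
    simp
  rw [h2, DD_monomial, WW]
  push_cast
  rw [← Finset.prod_mul_distrib]
  rfl

lemma T1_X (ε : ℝ) (κ : ℕ) (y : ℝ) (P : Polynomial ℂ) :
    T1 (ps ε κ) y ((Polynomial.X + Polynomial.C ((κ : ℕ) : ℂ)) * P) =
      T1 (ph ε) y (Polynomial.X * P) := by
  induction P using Polynomial.induction_on' with
  | add p q hp hq => rw [mul_add, mul_add, map_add, map_add, hp, hq]
  | monomial k a =>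
    have h1 : (Polynomial.X + Polynomial.C ((κ : ℕ) : ℂ)) * Polynomial.monomial k a =
        Polynomial.monomial (k+1) a + Polynomial.monomial k (((κ : ℕ) : ℂ) * a) := by
      rw [add_mul, Polynomial.X_mul_monomial, Polynomial.C_mul_monomial]
    rw [h1, map_add, T1_monomial, T1_monomial, Polynomial.X_mul_monomial, T1_monomial,
      ← ps_rel ε κ k y]
    push_cast
    ring

/-- `∏_{m=1}^M (X + m)` -/
noncomputable def dP (M : ℕ) : Polynomial ℂ :=
  ∏ m ∈ Finset.range M, (Polynomial.X + Polynomial.C ((m + 1 : ℕ) : ℂ))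

/-- partial fractions -/
lemma exists_coef (M : ℕ) : ∃ cf : ℕ → ℂ, ∀ (ε : ℝ), 0 < ε → ∀ (y : ℝ) (P : Polynomial ℂ),
    ∑ κ ∈ Finset.range (M+1), cf κ * T1 (ps ε κ) y (dP M * P) = T1 (ph ε) y P := by
  classical
  -- nodes `-κ`, `κ = 0, …, M`
  set nd : ℕ → ℂ := fun κ => -(κ : ℂ) with hnd
  have hinj : Set.InjOn nd (Finset.range (M+1) : Finset ℕ) := by
    intro i _ j _ hij
    simp only [hnd, neg_inj, Nat.cast_inj] at hij
    exact hij
  set cf : ℕ → ℂ := fun κ => ∏ m ∈ (Finset.range (M+1)).erase κ, (nd κ - nd m)⁻¹ with hcf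
  have hsum : ∑ κ ∈ Finset.range (M+1), Lagrange.basis (Finset.range (M+1)) nd κ = 1 :=
    Lagrange.sum_basis hinj ⟨0, by simp⟩
  have hb : ∀ κ, Lagrange.basis (Finset.range (M+1)) nd κ = Polynomial.C (cf κ) *
      ∏ m ∈ (Finset.range (M+1)).erase κ, (Polynomial.X + Polynomial.C (m : ℂ)) := by
    intro κ
    unfold Lagrange.basis Lagrange.basisDivisor
    rw [Finset.prod_mul_distrib, hcf, map_prod]
    congr 1
    refine Finset.prod_congr rfl fun m _ => ?_
    rw [hnd]; simp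
  refine ⟨cf, fun ε hε y P => ?_⟩
  have hdP : dP M = ∏ m ∈ (Finset.range (M+1)).erase 0, (Polynomial.X + Polynomial.C (m : ℂ)) := by
    unfold dP
    rw [Finset.range_eq_Ico, Finset.range_eq_Ico]
    have : (Finset.Ico 0 (M+1)).erase 0 = (Finset.Ico 0 M).map (addRightEmbedding 1) := by
      ext x
      simp only [Finset.mem_erase, Finset.mem_Ico, Finset.mem_map, addRightEmbedding_apply]
      constructor
      · rintro ⟨h1, h2, h3⟩
        exact ⟨x - 1, by omega, by omega⟩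
      · rintro ⟨a, h1, rfl⟩
        omega
    rw [this, Finset.prod_map]
    simp
  have hkey : ∀ κ ∈ Finset.range (M+1), T1 (ps ε κ) y (dP M * P) =
      T1 (ph ε) y ((∏ m ∈ (Finset.range (M+1)).erase κ, (Polynomial.X + Polynomial.C (m : ℂ))) * P) := by
    intro κ hκ
    rcases Nat.eq_zero_or_pos κ with h0 | h0
    · subst h0
      have : ps ε 0 = ph ε := funext fun k => ps_zero_eq ε hε k
      rw [this, hdP]
    · have h1 : dP M = (Polynomial.X + Polynomial.C ((κ : ℕ) : ℂ)) *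
          ∏ m ∈ ((Finset.range (M+1)).erase 0).erase κ, (Polynomial.X + Polynomial.C (m : ℂ)) := by
        rw [hdP, Finset.mul_prod_erase ((Finset.range (M+1)).erase 0)
          (fun m => (Polynomial.X + Polynomial.C (m : ℂ)))]
        exact Finset.mem_erase.2 ⟨by omega, hκ⟩
      have h2 : (∏ m ∈ (Finset.range (M+1)).erase κ, (Polynomial.X + Polynomial.C (m : ℂ))) =
          Polynomial.X * ∏ m ∈ ((Finset.range (M+1)).erase 0).erase κ,
            (Polynomial.X + Polynomial.C (m : ℂ)) := by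
        rw [Finset.erase_right_comm, ← Finset.mul_prod_erase ((Finset.range (M+1)).erase κ)
          (fun m => (Polynomial.X + Polynomial.C (m : ℂ))) (a := 0)]
        · simp
        · exact Finset.mem_erase.2 ⟨by omega, by simp⟩
      rw [h1, h2, mul_assoc, mul_assoc, T1_X]
  rw [Finset.sum_congr rfl fun κ hκ => by rw [hkey κ hκ]]
  have h3 : ∀ κ, cf κ * T1 (ph ε) y ((∏ m ∈ (Finset.range (M+1)).erase κ,
      (Polynomial.X + Polynomial.C (m : ℂ))) * P) =
      T1 (ph ε) y (Lagrange.basis (Finset.range (M+1)) nd κ * P) := by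
    intro κ
    rw [hb, mul_assoc, Polynomial.C_mul', map_smul, smul_eq_mul]
  simp only [h3]
  rw [← map_sum, ← Finset.sum_mul, hsum, one_mul]

lemma dm_eq (M : ℕ) (j : Fin r) : dm M j = Polynomial.aeval (X j : MvPolynomial (Fin r) ℂ) (dP M) := by
  unfold dm dP
  rw [map_prod]
  refine Finset.prod_congr rfl fun m _ => ?_
  simp

lemma dm_dvd (M : ℕ) (j : Fin r) (κ : ℕ) (h1 : 1 ≤ κ) (h2 : κ ≤ M) :
    (X j + C ((κ : ℕ) : ℂ)) ∣ dm M j := by
  unfold dm
  have h3 := Finset.dvd_prod_of_mem (fun m => (X j + C ((m + 1 : ℕ) : ℂ) : MvPolynomial (Fin r) ℂ))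
    (Finset.mem_range.2 (show κ - 1 < M by omega))
  rwa [Nat.sub_add_cancel h1] at h3

lemma Xdm_dvd (M : ℕ) (j : Fin r) (κ : ℕ) (h2 : κ ≤ M) :
    (X j + C ((κ : ℕ) : ℂ)) ∣ X j * dm M j := by
  rcases Nat.eq_zero_or_pos κ with h | h
  · subst h
    simp
  · exact (dm_dvd M j κ h h2).mul_left _

/-- The sum over all `κ ∈ {0, …, M} ^ r` removes the factor `∏ dm M j`. -/
lemma DD_sum (M : ℕ) : ∃ cf : ℕ → ℂ, ∀ (ε : ℝ), 0 < ε → ∀ (y : Fin r → ℝ)
    (p : MvPolynomial (Fin r) ℂ),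
    ∑ κ ∈ Fintype.piFinset (fun _ : Fin r => Finset.range (M+1)), (∏ j, cf (κ j)) *
      DD (pk ε κ) y (p * ∏ j, dm M j) = D (ph ε) y p := by
  obtain ⟨cf, hcf⟩ := exists_coef M
  refine ⟨cf, fun ε hε y p => ?_⟩
  induction p using MvPolynomial.induction_on' with
  | monomial u a =>
    have h1 : (monomial u a : MvPolynomial (Fin r) ℂ) * ∏ j, dm M j =
        C a * ∏ j, Polynomial.aeval (X j : MvPolynomial (Fin r) ℂ) (dP M * Polynomial.X ^ u j) := by
      rw [monomial_eq, Finsupp.prod_fintype _ _ (by simp), mul_assoc, ← Finset.prod_mul_distrib]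
      congr 1
      refine Finset.prod_congr rfl fun j _ => ?_
      rw [map_mul, ← dm_eq, map_pow, Polynomial.aeval_X, mul_comm]
    have h2 : ∀ κ : Fin r → ℕ, DD (pk ε κ) y ((monomial u a : MvPolynomial (Fin r) ℂ) *
        ∏ j, dm M j) = a * ∏ j, T1 (ps ε (κ j)) (y j) (dP M * Polynomial.X ^ u j) := by
      intro κ
      rw [h1, C_mul', map_smul, smul_eq_mul, DD_prod]
      rfl
    simp only [h2]
    have h3 : ∀ κ : Fin r → ℕ, (∏ j, cf (κ j)) *
        (a * ∏ j, T1 (ps ε (κ j)) (y j) (dP M * Polynomial.X ^ u j)) =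
        a * ∏ j, (cf (κ j) * T1 (ps ε (κ j)) (y j) (dP M * Polynomial.X ^ u j)) := by
      intro κ
      rw [Finset.prod_mul_distrib]; ring
    simp only [h3]
    rw [← Finset.mul_sum, ← Finset.prod_univ_sum (fun _ => Finset.range (M+1))
      (fun j κ => cf κ * T1 (ps ε κ) (y j) (dP M * Polynomial.X ^ u j))]
    simp only [hcf ε hε]
    rw [D_monomial, W]
    push_cast
    congr 1
    refine Finset.prod_congr rfl fun j _ => ?_
    rw [← Polynomial.monomial_one_right_eq_X_pow, T1_monomial, one_mul]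
  | add p q hp hq =>
    rw [map_add, ← hp, ← hq, ← Finset.sum_add_distrib]
    refine Finset.sum_congr rfl fun κ _ => ?_
    rw [add_mul, map_add, mul_add]

end Pool.Agent.W425.SM
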