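import Pool.Agent.H628R4.TP.Main

set_option autoImplicit false

/-! Sparse polynomials with affinely independent exponents: definitions. -/

namespace Pool.Agent.W425.SM

open MvPolynomial Pool.Agent.H628R4.TZ Pool.Agent.H628R4.TP

/-- The polynomial `∑_j a_j x ^ (v j)`. -/
noncomputable def sparse {r N : ℕ} (v : Fin r → Fin N → ℕ) (a : Fin r → ℂ) :
    MvPolynomial (Fin N) ℂ :=
  ∑ j, C (a j) * ∏ i, X i ^ v j i

/-- A smooth fan whose support is the positive orthant of `ℝ ^ N`. A cone (of any dimension) is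
given by the finite set of the primitive generators of its rays; the cones are closed under taking
faces, the generators of a cone are part of a basis of `ℤ ^ N`, and every point of the positive
orthant lies in the relative interior of exactly one cone. -/
structure SmoothFan (N : ℕ) where
  cones : Finset (Finset (Fin N → ℕ))
  face : ∀ σ ∈ cones, ∀ τ, τ ⊆ σ → τ ∈ cones
  smooth : ∀ σ ∈ cones, ∃ B : Matrix (Fin N) (Fin N) ℤ, IsUnit B.det ∧
    ∀ ρ ∈ σ, ∃ i, ∀ l, B i l = (ρ l : ℤ)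
  partition : ∀ x : Fin N → ℝ, (∀ l, 0 ≤ x l) → ∃! σ, σ ∈ cones ∧
    ∃ y : (Fin N → ℕ) → ℝ, (∀ ρ ∈ σ, 0 < y ρ) ∧ ∀ l, x l = ∑ ρ ∈ σ, y ρ * (ρ l : ℝ)

/-- The ideal generated by the monomials `x ^ (v j)` becomes principal on the toric variety. -/
def Principal {r N : ℕ} (v : Fin r → Fin N → ℕ) (R : SmoothFan N) : Prop :=
  ∀ σ ∈ R.cones, ∃ j, ∀ ρ ∈ σ, ∀ j', ∑ l, ρ l * v j l ≤ ∑ l, ρ l * v j' l

/-- The monomials of the initial part of `∑_j a_j x ^ (v j)` with respect to the cone `σ`. -/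
noncomputable def minSet {r N : ℕ} (v : Fin r → Fin N → ℕ) (σ : Finset (Fin N → ℕ)) :
    Finset (Fin r) :=
  Finset.univ.filter fun j => ∀ ρ ∈ σ, ∑ l, ρ l * v j l = ordAlong v ρ

/-- The homomorphism `(w, t) ↦ (⟨w, v_j⟩ + t)_{j ∈ J}` from `ℤ ^ N × ℤ` to `ℤ ^ J`. -/
def evalHom {r N : ℕ} (v : Fin r → Fin N → ℕ) (J : Finset (Fin r)) :
    ((Fin N → ℤ) × ℤ) →+ (J → ℤ) where
  toFun p j := ∑ i, p.1 i * (v j i : ℤ) + p.2
  map_zero' := by ext j; simp
  map_add' p q := by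
    ext j
    simp only [Prod.fst_add, Prod.snd_add, Pi.add_apply, add_mul, Finset.sum_add_distrib]
    ring

/-- The normalised lattice volume of the simplex with vertices `v_j`, `j ∈ J`: the index in
`ℤ ^ J` of the group of all `(⟨w, v_j⟩ + t)_{j ∈ J}`, `w ∈ ℤ ^ N`, `t ∈ ℤ`. -/
noncomputable def idx {r N : ℕ} (v : Fin r → Fin N → ℕ) (J : Finset (Fin r)) : ℕ :=
  (evalHom v J).range.index

/-- The Euler characteristic of the intersection of the strict transform of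
`{∑_j a_j x ^ (v j) = 0}` with the torus orbit of the cone `σ` of dimension `σ.card`: it is the
hypersurface `{∑_{j ∈ J} a_j x ^ (v j) = 0}`, `J = minSet v σ`, of a torus of dimension
`N - σ.card`. -/
noncomputable def chiH {r N : ℕ} (v : Fin r → Fin N → ℕ) (σ : Finset (Fin N → ℕ)) : ℤ :=
  if 2 ≤ (minSet v σ).card ∧ σ.card + (minSet v σ).card = N + 1 then
    (-1) ^ (minSet v σ).card * (idx v (minSet v σ) : ℤ) else 0

/-- The Euler characteristic of the torus orbit of the cone `σ`. -/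
def chiO {N : ℕ} (σ : Finset (Fin N → ℕ)) : ℤ := if σ.card = N then 1 else 0

/-- The global topological zeta function of `∑_j a_j x ^ (v j)`, computed on the toric embedded
resolution given by `R`. -/
noncomputable def topZetaSparse {r N : ℕ} (v : Fin r → Fin N → ℕ) (R : SmoothFan N) :
    RatFunc ℂ :=
  ∑ σ ∈ R.cones, (((chiO σ - chiH v σ : ℤ) : RatFunc ℂ) +
      ((chiH v σ : ℤ) : RatFunc ℂ) * (RatFunc.X + 1)⁻¹) *
    ∏ ρ ∈ σ, ((ordAlong v ρ : RatFunc ℂ) * RatFunc.X + ((∑ l, ρ l : ℕ) : RatFunc ℂ))⁻¹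

/-! ### Tools -/

/-- `∏_{m=1}^M (X_j + m)` -/
noncomputable def dm {r : ℕ} (M : ℕ) (j : Fin r) : MvPolynomial (Fin r) ℂ :=
  ∏ m ∈ Finset.range M, (X j + C ((m + 1 : ℕ) : ℂ))

/-- The kernel polynomial. -/
noncomputable def kerP {r N : ℕ} (v : Fin r → Fin N → ℕ) : MvPolynomial (Fin r) ℂ :=
  ∑ J : Finset (Fin r), C ((idx v J : ℂ) ^ 2) * ∏ j ∈ J, X j

/-- The algebraic relation satisfied by `b_f(s) / (s + 1)`. -/
def RelM {r N : ℕ} (v : Fin r → Fin N → ℕ) (p : Polynomial ℂ) : Prop :=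
  ∃ (M : ℕ) (Cs : Finset (Fin r → ℤ)) (q : (Fin r → ℤ) → MvPolynomial (Fin r) ℂ),
    (∀ c ∈ Cs, ∑ j, c j = 1) ∧
    Polynomial.aeval (∑ j, X j : MvPolynomial (Fin r) ℂ) p * ∏ j, dm M j =
      ∑ c ∈ Cs, (∏ i ∈ Bc v c, el v i) * ((∏ j, if c j < 0 then X j * dm M j else 1) * q c)

/-- the linear forms `⟨w, v_j⟩ - t` at `x = (t, w)` -/
def ymap {r N : ℕ} (v : Fin r → Fin N → ℕ) (x : Fin (N+1) → ℝ) (j : Fin r) : ℝ :=
  ∑ i, (v j i : ℝ) * x i.succ - x 0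

/-- the lift `(ord ρ, ρ)` of a ray -/
noncomputable def rhoHat {r N : ℕ} (v : Fin r → Fin N → ℕ) (ρ : Fin N → ℕ) : Fin (N+1) → ℝ :=
  Fin.cons (ordAlong v ρ : ℝ) (fun l => (ρ l : ℝ))

/-- `δ_m = 1 / (m + 1)` -/
noncomputable def dl (m : ℕ) : ℝ := 1 / ((m : ℝ) + 1)

/-- the translation: `-K δ_m - α δ_m ∑_i v_{j,i}` -/
noncomputable def yz {r N : ℕ} (v : Fin r → Fin N → ℕ) (K α : ℝ) (m : ℕ) (j : Fin r) : ℝ :=
  -(K * dl m) - α * dl m * ∑ i, (v j i : ℝ)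

/-- The integrand for `J`: smoothed delta functions at `y_j = 0`, `j ∈ J`, and smoothed step
functions of the other `y_j`. -/
noncomputable def integ {r N : ℕ} (v : Fin r → Fin N → ℕ) (K α s : ℝ) (J : Finset (Fin r)) (m : ℕ)
    (x : Fin (N+1) → ℝ) : ℂ :=
  wt (lm (N := N) s) x * ∏ j, (((if j ∈ J then -ph (dl m ^ 2) 1 (ymap v x j + yz v K α m j)
    else ph (dl m ^ 2) 0 (ymap v x j + yz v K α m j) : ℝ)) : ℂ)

/-- the condition on the cone `σ` to contribute: all cones for `α > 0`, and the cones whose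
relative interior is in the open orthant for `α < 0` -/
def Inc {N : ℕ} (α : ℝ) (σ : Finset (Fin N → ℕ)) : Prop :=
  0 < α ∨ ∀ l, ∃ ρ ∈ σ, ρ l ≠ 0

/-- the limit integrand -/
noncomputable def limG {r N : ℕ} (v : Fin r → Fin N → ℕ) (α s : ℝ) (J : Finset (Fin r))
    (x : Fin (N+1) → ℝ) : ℂ :=
  open Classical in
  if 0 < x 0 ∧ (∀ i : Fin N, 0 < x i.succ ∨ (0 < α ∧ x i.succ = 0)) ∧ (∀ j ∉ J, 0 < ymap v x j)
  then wt (lm (N := N) s) x else 0

/-- the limit for `J` -/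
noncomputable def limJ {r N : ℕ} (v : Fin r → Fin N → ℕ) (R : SmoothFan N) (α s : ℝ)
    (J : Finset (Fin r)) : ℂ :=
  open Classical in
  ∑ σ ∈ R.cones, if minSet v σ = J ∧ σ.card + J.card = N + 1 ∧ Inc α σ ∧
      (∃ ρ ∈ σ, ordAlong v ρ ≠ 0) then
    (idx v J : ℂ)⁻¹ * ∏ ρ ∈ σ, ((ordAlong v ρ : ℂ) * s + ((∑ l, ρ l : ℕ) : ℂ))⁻¹ else 0

end Pool.Agent.W425.SM
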