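import Pool.Agent.W425.SM.Defs

set_option autoImplicit false

/-! Statements of the parts. -/

namespace Pool.Agent.W425.SM

open MvPolynomial Pool.Agent.H628R4.TZ Pool.Agent.H628R4.TP MeasureTheory Filter Topology

/-- affine independence of the exponents -/
def Ind {r N : ℕ} (v : Fin r → Fin N → ℕ) : Prop :=
  AffineIndependent ℚ (fun j => (fun i => (v j i : ℚ) : Fin N → ℚ))

/-- Part A: from the functional equation to the algebraic relation. -/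
def TaskA : Prop := ∀ {r N : ℕ} (v : Fin r → Fin N → ℕ) (a : Fin r → ℂ) (b : Polynomial ℂ),
  2 ≤ r → Ind v → (∀ j, a j ≠ 0) → IsBFunction (sparse v a) b →
  ∃ p : Polynomial ℂ, b = (Polynomial.X + 1) * p ∧ RelM v p

/-- Part K: the property of the kernel polynomial. -/
def TaskK : Prop := ∀ {r N : ℕ} (v : Fin r → Fin N → ℕ) (κ : Fin r → ℕ) (i : Fin N),
  ∑ j, κ j * v j i = 1 →
  kerP v ∈ Ideal.span {p : MvPolynomial (Fin r) ℂ | ∃ j, 0 < v j i ∧ p = X j + C ((κ j : ℕ) : ℂ)}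

/-- Data adapted to `J`: linear coordinates `(z, a)` on `ℝ ^ (N+1)` with `y_j = z_j` for `j ∈ J`,
and the Jacobian `θ`. -/
structure Adapt {r N : ℕ} (v : Fin r → Fin N → ℕ) (J : Finset (Fin r)) (d : ℕ)
    (Θ : ((J → ℝ) × (Fin d → ℝ)) ≃ₗ[ℝ] (Fin (N+1) → ℝ)) (θ : ℝ) : Prop where
  pos : 0 < θ
  dim : d + J.card = N + 1
  y : ∀ (z : J → ℝ) (a : Fin d → ℝ) (j : J), ymap v (Θ (z, a)) j = z j
  int : ∀ g : (Fin (N+1) → ℝ) → ℂ, ∫ x, g x = θ * ∫ p : (J → ℝ) × (Fin d → ℝ), g (Θ p)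

/-- the region of the cone `σ` in the coordinates of `Θ` -/
def reg {r N : ℕ} (v : Fin r → Fin N → ℕ) {J : Finset (Fin r)} {d : ℕ}
    (Θ : ((J → ℝ) × (Fin d → ℝ)) ≃ₗ[ℝ] (Fin (N+1) → ℝ)) (σ : Finset (Fin N → ℕ)) :
    Set (Fin d → ℝ) :=
  {a | ∃ c : (Fin N → ℕ) → ℝ, (∀ ρ ∈ σ, 0 < c ρ) ∧ Θ (0, a) = ∑ ρ ∈ σ, c ρ • rhoHat v ρ}

/-- Part C1: existence of adapted data, and the lattice index. -/
def TaskC1 : Prop := ∀ {r N : ℕ} (v : Fin r → Fin N → ℕ) (R : SmoothFan N) (J : Finset (Fin r)),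
  Ind v → J.Nonempty → ∃ (d : ℕ) (Θ : ((J → ℝ) × (Fin d → ℝ)) ≃ₗ[ℝ] (Fin (N+1) → ℝ)) (θ : ℝ),
    Adapt v J d Θ θ ∧ ∀ σ ∈ R.cones, minSet v σ = J → σ.card + J.card = N + 1 →
      ∀ F : (Fin (N+1) → ℝ) → ℂ,
        (θ : ℂ) * (idx v J : ℂ) * ∫ a in reg v Θ σ, F (Θ (0, a)) =
          ∫ c in {c : σ → ℝ | ∀ ρ, 0 < c ρ}, F (∑ ρ : σ, c ρ • rhoHat v (ρ : Fin N → ℕ))

/-- Part C2: the limit of the integrals. -/
def TaskC2 : Prop := ∀ {r N : ℕ} (v : Fin r → Fin N → ℕ), Ind v → ∀ (K α s : ℝ), 0 < K → α ≠ 0 →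
  0 < s → ∀ (J : Finset (Fin r)) (d : ℕ)
  (Θ : ((J → ℝ) × (Fin d → ℝ)) ≃ₗ[ℝ] (Fin (N+1) → ℝ)) (θ : ℝ), Adapt v J d Θ θ →
  Tendsto (fun m : ℕ => ∫ x, integ v K α s J m x ∂(Measure.pi (ms (∅ : Finset (Fin (N+1))))))
    atTop (𝓝 ((θ : ℂ) * ∫ a, limG v α s J (Θ (0, a))))

/-- Part C3: the value of the limit. -/
def TaskC3 : Prop := ∀ {r N : ℕ} [NeZero r] (v : Fin r → Fin N → ℕ) (R : SmoothFan N), Ind v →
  Principal v R → ∀ (α s : ℝ), α ≠ 0 → 0 < s → ∀ (J : Finset (Fin r)), J.Nonempty → ∀ (d : ℕ)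
  (Θ : ((J → ℝ) × (Fin d → ℝ)) ≃ₗ[ℝ] (Fin (N+1) → ℝ)) (θ : ℝ), Adapt v J d Θ θ →
  (∀ σ ∈ R.cones, minSet v σ = J → σ.card + J.card = N + 1 →
      ∀ F : (Fin (N+1) → ℝ) → ℂ,
        (θ : ℂ) * (idx v J : ℂ) * ∫ a in reg v Θ σ, F (Θ (0, a)) =
          ∫ c in {c : σ → ℝ | ∀ ρ, 0 < c ρ}, F (∑ ρ : σ, c ρ • rhoHat v (ρ : Fin N → ℕ))) →
  idx v J ≠ 0 →
  (θ : ℂ) * ∫ a, limG v α s J (Θ (0, a)) = limJ v R α s J

/-- Part C4: the index is finite. -/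
def TaskC4 : Prop := ∀ {r N : ℕ} (v : Fin r → Fin N → ℕ) (J : Finset (Fin r)), Ind v →
  idx v J ≠ 0 ∧ (J.card = 1 → idx v J = 1) ∧ (J.card = 0 → idx v J = 1)

end Pool.Agent.W425.SM
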