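import Pool.Agent.W425.SM.FF
import Pool.Agent.W425.SM.Stmts

set_option autoImplicit false

namespace Pool.Agent.W425.SM

open MvPolynomial Pool.Agent.H628R4.TZ Pool.Agent.H628R4.TP MeasureTheory Set Filter Topology

variable {r N : ℕ}

lemma yz_eq (v : Fin r → Fin N → ℕ) (K α : ℝ) (m : ℕ) : yz v K α m = yT v (K * dl m) (α * dl m) := by
  funext j; rfl

lemma dl_pos (m : ℕ) : 0 < dl m := by unfold dl; positivity

lemma dl_le (m : ℕ) : dl m ≤ 1 := by
  unfold dl
  rw [div_le_one (by positivity)]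
  have : (0:ℝ) ≤ m := Nat.cast_nonneg m
  linarith

lemma dl_tendsto : Tendsto dl atTop (𝓝 0) := tendsto_one_div_add_atTop_nhds_zero_nat

lemma Y_ymap (v : Fin r → Fin N → ℕ) (y0 : Fin r → ℝ) (x : Fin (N+1) → ℝ) (j : Fin r) :
    Y (av v) y0 x j = ymap v x j + y0 j := by
  rw [Y_av']; rfl

/-- the value of the functional on a squarefree monomial -/
lemma Φ_XJ (v : Fin r → Fin N → ℕ) (K α s : ℝ) (m : ℕ) (J : Finset (Fin r)) :
    Φ (ph (dl m ^ 2)) ∅ (lm (N := N) s) (av v) (yz v K α m) (∏ j ∈ J, X j) =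
      (-1) ^ J.card * ∫ x, integ v K α s J m x ∂(Measure.pi (ms (∅ : Finset (Fin (N+1))))) := by
  classical
  unfold Φ
  rw [← integral_const_mul]
  refine integral_congr_ae (Eventually.of_forall fun x => ?_)
  simp only [integ]
  have h1 : (∏ j ∈ J, X j : MvPolynomial (Fin r) ℂ) =
      monomial (Finsupp.equivFunOnFinite.symm fun j => if j ∈ J then 1 else 0) 1 := by
    rw [monomial_eq, C_1, one_mul, Finsupp.prod_fintype _ _ (by simp)]
    simp only [Finsupp.equivFunOnFinite_symm_apply_apply, pow_ite, pow_one, pow_zero]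
    rw [Finset.prod_ite_mem, Finset.univ_inter]
  rw [h1, D_monomial, one_mul, W]
  have h2 : ∀ j, ((ph (dl m ^ 2) ((Finsupp.equivFunOnFinite.symm
      fun j => if j ∈ J then 1 else 0 : Fin r →₀ ℕ) j) (Y (av v) (yz v K α m) x j) : ℝ) : ℂ) =
      (if j ∈ J then (-1 : ℂ) else 1) * (((if j ∈ J then -ph (dl m ^ 2) 1 (ymap v x j + yz v K α m j)
      else ph (dl m ^ 2) 0 (ymap v x j + yz v K α m j) : ℝ)) : ℂ) := by
    intro j
    rw [Y_ymap]
    by_cases hj : j ∈ J <;> simp [hj]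
  rw [Complex.ofReal_prod]
  simp only [h2]
  rw [Finset.prod_mul_distrib]
  have h3 : (∏ j, if j ∈ J then (-1 : ℂ) else 1) = (-1) ^ J.card := by
    rw [Finset.prod_ite_mem, Finset.univ_inter, Finset.prod_const]
  rw [h3]
  ring

lemma Φ_kerP (v : Fin r → Fin N → ℕ) (K α s : ℝ) (hs : 0 < s) (m : ℕ) :
    Φ (ph (dl m ^ 2)) ∅ (lm (N := N) s) (av v) (yz v K α m) (kerP v) =
      ∑ J : Finset (Fin r), (idx v J : ℂ) ^ 2 * ((-1) ^ J.card *
        ∫ x, integ v K α s J m x ∂(Measure.pi (ms (∅ : Finset (Fin (N+1)))))) := by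
  unfold kerP
  rw [Φ_sum (ph_dseq _ (pow_pos (dl_pos m) 2)) _ _ (lm_pos s hs)]
  refine Finset.sum_congr rfl fun J _ => ?_
  rw [Φ_C_mul, Φ_XJ]

lemma ae_ms' {M : ℕ} (S : Finset (Fin M)) :
    ∀ᵐ x ∂(Measure.pi (ms S)), (∀ i ∉ S, 0 < x i) ∧ ∀ i ∈ S, x i = 0 := by
  have h1 : ∀ i, ∀ᵐ t ∂(ms S i), (i ∉ S → 0 < t) ∧ (i ∈ S → t = 0) := by
    intro i
    unfold ms
    split_ifs with hi
    · rw [ae_dirac_iff]
      · simp [hi]
      · have : {t : ℝ | (i ∉ S → 0 < t) ∧ (i ∈ S → t = 0)} = {0} := by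
          ext t; simp [hi]
        rw [this]; exact measurableSet_singleton _
    · filter_upwards [ae_restrict_mem measurableSet_Ioi] with t ht
      exact ⟨fun _ => ht, fun h => absurd h hi⟩
  have h2 : ∀ i, ∀ᵐ x ∂(Measure.pi (ms S)), (i ∉ S → 0 < x i) ∧ (i ∈ S → x i = 0) := fun i =>
    (Measure.quasiMeasurePreserving_eval (ms S) i).ae (h1 i)
  filter_upwards [ae_all_iff.2 h2] with x hx
  exact ⟨fun i hi => (hx i).1 hi, fun i hi => (hx i).2 hi⟩

lemma yz_tendsto (v : Fin r → Fin N → ℕ) (K α : ℝ) (j : Fin r) :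
    Tendsto (fun m => yz v K α m j) atTop (𝓝 0) := by
  unfold yz
  have h1 := (dl_tendsto.const_mul K).neg.sub
    ((dl_tendsto.const_mul α).mul_const (∑ i, (v j i : ℝ)))
  simpa using h1

/-- the boundary term at `t = 0` -/
lemma bdry_lim (v : Fin r → Fin N → ℕ) (hv0 : ∀ j, v j ≠ 0) (K α s : ℝ) (hs : 0 < s) :
    Tendsto (fun m : ℕ => Φ (ph (dl m ^ 2)) {0} (lm (N := N) s) (av v) (yz v K α m) 1) atTop
      (𝓝 1) := by
  have h0 : ∫ x, wt (lm (N := N) s) x ∂(Measure.pi (ms ({0} : Finset (Fin (N+1))))) = 1 := by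
    unfold wt
    rw [integral_fintype_prod_eq_prod (fun i t => ((Real.exp (-lm (N := N) s i * t) : ℝ) : ℂ)),
      Fin.prod_univ_succ]
    have h1 : ∫ t, ((Real.exp (-lm (N := N) s 0 * t) : ℝ) : ℂ)
        ∂(ms ({0} : Finset (Fin (N+1))) 0) = 1 := by
      simp [ms, integral_dirac]
    rw [h1, one_mul]
    refine Finset.prod_eq_one fun i _ => ?_
    have h2 : ms ({0} : Finset (Fin (N+1))) i.succ = volume.restrict (Ioi 0) := by
      simp [ms]
    rw [h2]
    have h3 := exp_int 1 one_pos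
    simpa [lm] using h3
  rw [← h0]
  unfold Φ
  refine tendsto_integral_of_dominated_convergence (fun x => ‖wt (lm (N := N) s) x‖) ?_ ?_ ?_ ?_
  · intro m
    exact (int_integrable (ph_dseq _ (pow_pos (dl_pos m) 2)) _ _ (lm_pos s hs) _ _
      _).aestronglyMeasurable
  · exact (wt_integrable _ _ (lm_pos s hs)).norm
  · intro m
    refine Eventually.of_forall fun x => ?_
    rw [norm_mul]
    refine mul_le_of_le_one_right (norm_nonneg _) ?_
    rw [D_one, norm_prod]
    refine Finset.prod_le_one (fun _ _ => norm_nonneg _) fun j _ => ?_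
    rw [ph_zero, Complex.norm_real, Real.norm_eq_abs, stp,
      abs_of_nonneg (Real.smoothTransition.nonneg _)]
    exact Real.smoothTransition.le_one _
  · filter_upwards [ae_ms' ({0} : Finset (Fin (N+1)))] with x hx
    obtain ⟨hx1, hx2⟩ := hx
    have hx0 : x 0 = 0 := hx2 0 (by simp)
    have hxs : ∀ i : Fin N, 0 < x i.succ := fun i => hx1 _ (by simp)
    have h4 : ∀ j, Tendsto (fun m : ℕ => ((ph (dl m ^ 2) 0 (Y (av v) (yz v K α m) x j) : ℝ) : ℂ))
        atTop (𝓝 1) := by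
      intro j
      have hpos : 0 < ymap v x j := by
        unfold ymap
        rw [hx0, sub_zero]
        obtain ⟨i, hi⟩ : ∃ i, v j i ≠ 0 := by
          by_contra hcon
          push Not at hcon
          exact hv0 j (funext hcon)
        refine Finset.sum_pos' (fun i _ => mul_nonneg (Nat.cast_nonneg _) (hxs i).le)
          ⟨i, Finset.mem_univ i, mul_pos (by exact_mod_cast Nat.pos_of_ne_zero hi) (hxs i)⟩
      have h5 : Tendsto (fun m => ymap v x j + yz v K α m j - dl m ^ 2) atTop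
          (𝓝 (ymap v x j)) := by
        have h6 := ((tendsto_const_nhds (x := ymap v x j)).add (yz_tendsto v K α j)).sub
          (dl_tendsto.pow 2)
        simpa using h6
      refine tendsto_const_nhds.congr' ?_
      filter_upwards [h5.eventually (lt_mem_nhds hpos)] with m hm
      rw [Y_ymap, ph_zero, stp_big _ (pow_pos (dl_pos m) 2) _ (by linarith)]
      simp
    have h7 : Tendsto (fun m : ℕ => wt (lm (N := N) s) x *
        ∏ j, ((ph (dl m ^ 2) 0 (Y (av v) (yz v K α m) x j) : ℝ) : ℂ)) atTop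
        (𝓝 (wt (lm (N := N) s) x * ∏ _j : Fin r, (1:ℂ))) :=
      (tendsto_finsetProd _ fun j _ => h4 j).const_mul _
    simp only [Finset.prod_const_one, mul_one] at h7
    simpa only [D_one] using h7

/-- the value of the limit of the functional at the kernel -/
noncomputable def Zt (v : Fin r → Fin N → ℕ) (R : SmoothFan N) (α s : ℝ) : ℂ :=
  (1 - ∑ j : Fin r, limJ v R α s {j}) / s +
    ∑ J ∈ (Finset.univ : Finset (Finset (Fin r))).filter (fun J => J.Nonempty),
      (idx v J : ℂ) ^ 2 * ((-1) ^ J.card * limJ v R α s J)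

lemma ker_lim (v : Fin r → Fin N → ℕ) (R : SmoothFan N) (hv0 : ∀ j, v j ≠ 0)
    (hidx : idx v ∅ = 1) (K α s : ℝ) (hs : 0 < s)
    (hC : ∀ J : Finset (Fin r), J.Nonempty → Tendsto (fun m : ℕ => ∫ x, integ v K α s J m x
      ∂(Measure.pi (ms (∅ : Finset (Fin (N+1)))))) atTop (𝓝 (limJ v R α s J))) :
    Tendsto (fun m : ℕ => Φ (ph (dl m ^ 2)) ∅ (lm (N := N) s) (av v) (yz v K α m) (kerP v)) atTop
      (𝓝 (Zt v R α s)) := by
  classical
  have hsC : (s : ℂ) ≠ 0 := by exact_mod_cast hs.ne'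
  -- the empty set
  have hstokes : ∀ m : ℕ, Φ (ph (dl m ^ 2)) ∅ (lm (N := N) s) (av v) (yz v K α m) 1 =
      (Φ (ph (dl m ^ 2)) {0} (lm (N := N) s) (av v) (yz v K α m) 1 -
        ∑ j : Fin r, ∫ x, integ v K α s {j} m x ∂(Measure.pi (ms (∅ : Finset (Fin (N+1)))))) / s := by
    intro m
    have hε := pow_pos (dl_pos m) 2
    have h1 := Φ_step (ph_dseq _ hε) ∅ _ (lm_pos (N := N) s hs) (av v) (yz v K α m) 0 (by simp) 1
    have h2 : (C ((lm (N := N) s 0 : ℝ) : ℂ) + Lf (fun j => av v j 0)) * (1 : MvPolynomial (Fin r) ℂ) =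
        C (s : ℂ) * 1 + ∑ j, C (-1) * ∏ j' ∈ ({j} : Finset (Fin r)), X j' := by
      simp [lm, Lf, av]
    rw [h2, Φ_add (ph_dseq _ hε) _ _ (lm_pos s hs), Φ_C_mul,
      Φ_sum (ph_dseq _ hε) _ _ (lm_pos s hs)] at h1
    simp only [Φ_C_mul, Φ_XJ, Finset.card_singleton, pow_one] at h1
    have h3 : (insert 0 ∅ : Finset (Fin (N+1))) = {0} := rfl
    rw [h3] at h1
    rw [eq_div_iff hsC, ← h1]
    simp only [neg_mul, one_mul, neg_neg]
    ring
  have h0 : Tendsto (fun m : ℕ => Φ (ph (dl m ^ 2)) ∅ (lm (N := N) s) (av v) (yz v K α m) 1) atTop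
      (𝓝 ((1 - ∑ j : Fin r, limJ v R α s {j}) / s)) := by
    simp only [hstokes]
    exact ((bdry_lim v hv0 K α s hs).sub
      (tendsto_finsetSum _ fun j _ => hC {j} (Finset.singleton_nonempty j))).div_const _
  have h1 : ∀ m : ℕ, Φ (ph (dl m ^ 2)) ∅ (lm (N := N) s) (av v) (yz v K α m) (kerP v) =
      Φ (ph (dl m ^ 2)) ∅ (lm (N := N) s) (av v) (yz v K α m) 1 +
      ∑ J ∈ (Finset.univ : Finset (Finset (Fin r))).filter (fun J => J.Nonempty),
        (idx v J : ℂ) ^ 2 * ((-1) ^ J.card *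
        ∫ x, integ v K α s J m x ∂(Measure.pi (ms (∅ : Finset (Fin (N+1)))))) := by
    intro m
    rw [Φ_kerP v K α s hs m, ← Finset.add_sum_erase Finset.univ _ (Finset.mem_univ ∅)]
    congr 1
    · have h2 := Φ_XJ v K α s m ∅
      rw [Finset.prod_empty] at h2
      rw [← h2, hidx]; simp
    · refine Finset.sum_congr ?_ fun _ _ => rfl
      ext J
      simp [Finset.nonempty_iff_ne_empty]
  simp only [h1]
  unfold Zt
  refine h0.add (tendsto_finsetSum _ fun J hJ => ?_)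
  exact ((hC J (Finset.mem_filter.1 hJ).2).const_mul _).const_mul _

end Pool.Agent.W425.SM
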