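import Pool.Agent.W425.SM.DD

set_option autoImplicit false

namespace Pool.Agent.W425.SM

open MvPolynomial Pool.Agent.H628R4.TZ Pool.Agent.H628R4.TP MeasureTheory Set Filter Topology

variable {r N : ℕ}

/-- the growth exponent of the direction `i` -/
def ell (v : Fin r → Fin N → ℕ) (κ : Fin r → ℕ) (i : Fin N) : ℕ := ∑ j, κ j * v j i

/-- total exponent -/
def Lam (v : Fin r → Fin N → ℕ) (κ : Fin r → ℕ) : ℕ := ∑ i, ell v κ i

/-- `p` is good in the direction `i`: multiples of `p` vanish far away in this direction. -/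
def GoodDir (v : Fin r → Fin N → ℕ) (ε : ℝ) (κ : Fin r → ℕ) (i : Fin N)
    (p : MvPolynomial (Fin r) ℂ) : Prop :=
  ∀ (q : MvPolynomial (Fin r) ℂ) (y : Fin r → ℝ), (∀ j, 0 < v j i → ε < y j) →
    DD (pk ε κ) y (q * p) = 0

lemma GoodDir.mul_left {v : Fin r → Fin N → ℕ} {ε : ℝ} {κ : Fin r → ℕ} {i : Fin N}
    {p : MvPolynomial (Fin r) ℂ} (h : GoodDir v ε κ i p) (q : MvPolynomial (Fin r) ℂ) :
    GoodDir v ε κ i (q * p) := fun q' y hy => by
  rw [← mul_assoc]; exact h _ y hy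

lemma GoodDir.mul_right {v : Fin r → Fin N → ℕ} {ε : ℝ} {κ : Fin r → ℕ} {i : Fin N}
    {p : MvPolynomial (Fin r) ℂ} (h : GoodDir v ε κ i p) (q : MvPolynomial (Fin r) ℂ) :
    GoodDir v ε κ i (p * q) := by rw [mul_comm]; exact h.mul_left q

lemma GoodDir.of_dvd {v : Fin r → Fin N → ℕ} {ε : ℝ} {κ : Fin r → ℕ} {i : Fin N}
    {p q : MvPolynomial (Fin r) ℂ} (h : GoodDir v ε κ i p) (hd : p ∣ q) :
    GoodDir v ε κ i q := by
  obtain ⟨c, rfl⟩ := hd
  exact h.mul_right c

lemma GoodDir.add {v : Fin r → Fin N → ℕ} {ε : ℝ} {κ : Fin r → ℕ} {i : Fin N}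
    {p p' : MvPolynomial (Fin r) ℂ} (h : GoodDir v ε κ i p) (h' : GoodDir v ε κ i p') :
    GoodDir v ε κ i (p + p') := fun q y hy => by
  rw [mul_add, map_add, h q y hy, h' q y hy, add_zero]

lemma GoodDir.zero {v : Fin r → Fin N → ℕ} {ε : ℝ} {κ : Fin r → ℕ} {i : Fin N} :
    GoodDir v ε κ i 0 := fun q y _ => by rw [mul_zero, map_zero]

lemma GoodDir.sum {v : Fin r → Fin N → ℕ} {ε : ℝ} {κ : Fin r → ℕ} {i : Fin N} {ι : Type*}
    (s : Finset ι) (p : ι → MvPolynomial (Fin r) ℂ) (h : ∀ k ∈ s, GoodDir v ε κ i (p k)) :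
    GoodDir v ε κ i (∑ k ∈ s, p k) := by
  classical
  induction s using Finset.induction_on with
  | empty => simpa using GoodDir.zero
  | insert a s ha ih =>
    rw [Finset.sum_insert ha]
    exact (h a (by simp)).add (ih fun k hk => h k (by simp [hk]))

lemma goodDir_lin {v : Fin r → Fin N → ℕ} {ε : ℝ} (hε : 0 < ε) {κ : Fin r → ℕ} {i : Fin N}
    (j : Fin r) (hj : 0 < v j i) : GoodDir v ε κ i (X j + C ((κ j : ℕ) : ℂ)) := fun q y hy => by
  rw [mul_comm]; exact DD_tail ε hε κ y j (hy j hj) q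

/-- `ℓ_i + ℓ_i(κ)` -/
noncomputable def mm (v : Fin r → Fin N → ℕ) (κ : Fin r → ℕ) (i : Fin N) :
    MvPolynomial (Fin r) ℂ := Lf (fun j => (v j i : ℝ)) + C ((ell v κ i : ℕ) : ℂ)

lemma mm_eq (v : Fin r → Fin N → ℕ) (κ : Fin r → ℕ) (i : Fin N) :
    mm v κ i = ∑ j, C ((v j i : ℕ) : ℂ) * (X j + C ((κ j : ℕ) : ℂ)) := by
  unfold mm Lf ell
  rw [Nat.cast_sum, map_sum, ← Finset.sum_add_distrib]
  refine Finset.sum_congr rfl fun j _ => ?_
  rw [mul_add]
  push_cast
  rw [map_mul, mul_comm (C ((κ j : ℂ)))]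

lemma goodDir_mm {v : Fin r → Fin N → ℕ} {ε : ℝ} (hε : 0 < ε) {κ : Fin r → ℕ} {i : Fin N} :
    GoodDir v ε κ i (mm v κ i) := by
  rw [mm_eq]
  refine GoodDir.sum _ _ fun j _ => ?_
  rcases Nat.eq_zero_or_pos (v j i) with h | h
  · rw [h]; simpa using GoodDir.zero
  · exact (goodDir_lin hε j h).mul_left _

/-- the honest integral over the face `S` -/
noncomputable def HH (v : Fin r → Fin N → ℕ) (ε : ℝ) (κ : Fin r → ℕ) (s : ℝ) (y0 : Fin r → ℝ)
    (S : Finset (Fin N)) (p : MvPolynomial (Fin r) ℂ) : ℂ :=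
  ∫ x, wt (lm (N := N) s) x * DD (pk ε κ) (Y (av v) y0 x) p
    ∂(Measure.pi (ms (S.map (Fin.succEmb N))))

/-- all the growing directions outside `S` are good -/
def Gd (v : Fin r → Fin N → ℕ) (ε : ℝ) (κ : Fin r → ℕ) (S : Finset (Fin N))
    (p : MvPolynomial (Fin r) ℂ) : Prop := ∀ i ∉ S, 0 < ell v κ i → GoodDir v ε κ i p

lemma Y_av' (v : Fin r → Fin N → ℕ) (y0 : Fin r → ℝ) (x : Fin (N+1) → ℝ) (j : Fin r) :
    Y (av v) y0 x j = ∑ i, (v j i : ℝ) * x i.succ - x 0 + y0 j := by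
  unfold Y av
  rw [Fin.sum_univ_succ]
  simp only [Fin.cons_zero, Fin.cons_succ]
  ring

lemma sum_kap_Y (v : Fin r → Fin N → ℕ) (κ : Fin r → ℕ) (y0 : Fin r → ℝ) (x : Fin (N+1) → ℝ) :
    ∑ j, (κ j : ℝ) * Y (av v) y0 x j =
      ∑ i, (ell v κ i : ℝ) * x i.succ - (∑ j, (κ j : ℝ)) * x 0 + ∑ j, (κ j : ℝ) * y0 j := by
  simp only [Y_av', mul_add, mul_sub, Finset.sum_add_distrib, Finset.sum_sub_distrib]
  congr 2
  · simp only [Finset.mul_sum]
    rw [Finset.sum_comm]
    refine Finset.sum_congr rfl fun i _ => ?_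
    unfold ell
    push_cast
    rw [Finset.sum_mul]
    exact Finset.sum_congr rfl fun j _ => by ring
  · rw [Finset.sum_mul]

/-- where a good polynomial does not vanish, the coordinate is bounded -/
lemma coord_le (v : Fin r → Fin N → ℕ) (ε : ℝ) (κ : Fin r → ℕ) (y0 : Fin r → ℝ) (i : Fin N)
    (p : MvPolynomial (Fin r) ℂ) (hp : GoodDir v ε κ i p) (x : Fin (N+1) → ℝ)
    (hx : ∀ k, k ≠ i.succ → 0 ≤ x k)
    (hne : DD (pk ε κ) (Y (av v) y0 x) p ≠ 0) (hi0 : 0 ≤ x i.succ) :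
    x i.succ ≤ ε + x 0 + ∑ j, |y0 j| := by
  by_contra hcon
  apply hne
  have := hp 1 (Y (av v) y0 x) ?_
  · simpa using this
  intro j hj
  rw [Y_av']
  have h1 : x i.succ ≤ ∑ i', (v j i' : ℝ) * x i'.succ := by
    have h2 : (v j i : ℝ) * x i.succ ≤ ∑ i', (v j i' : ℝ) * x i'.succ := by
      refine Finset.single_le_sum (f := fun i' => (v j i' : ℝ) * x i'.succ) (fun i' _ => ?_)
        (Finset.mem_univ i)
      refine mul_nonneg (Nat.cast_nonneg _) ?_
      by_cases h : i' = i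
      · rw [h]; exact hi0
      · exact hx _ fun h' => h (Fin.succ_injective _ h')
    refine le_trans ?_ h2
    exact le_mul_of_one_le_left hi0 (by exact_mod_cast hj)
  have h3 : -(∑ j, |y0 j|) ≤ y0 j := by
    have h4 := Finset.single_le_sum (f := fun j => |y0 j|) (fun _ _ => abs_nonneg _)
      (Finset.mem_univ j)
    have h5 := neg_abs_le (y0 j)
    linarith
  linarith [not_le.1 hcon]

lemma HH_integrable (v : Fin r → Fin N → ℕ) (ε : ℝ) (hε : 0 < ε) (κ : Fin r → ℕ) (s : ℝ)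
    (hs : (Lam v κ : ℝ) + 1 ≤ s) (y0 : Fin r → ℝ) (S : Finset (Fin N))
    (p : MvPolynomial (Fin r) ℂ) (hp : Gd v ε κ S p) :
    Integrable (fun x => wt (lm (N := N) s) x * DD (pk ε κ) (Y (av v) y0 x) p)
      (Measure.pi (ms (S.map (Fin.succEmb N)))) := by
  obtain ⟨C, hC0, hC⟩ := DD_growth ε hε κ p
  set C1 : ℝ := Lam v κ * (ε + ∑ j, |y0 j|) + ∑ j, (κ j : ℝ) * |y0 j| with hC1
  have hint := wt_integrable (S.map (Fin.succEmb N)) (fun _ => (1:ℝ)) (fun _ => one_pos)
  refine Integrable.mono' (hint.norm.const_mul (C * Real.exp C1)) ?_ ?_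
  · refine Continuous.aestronglyMeasurable ?_
    refine Continuous.mul ?_ ((DD_cont ε hε κ p).comp (Y_cont _ _))
    unfold wt
    fun_prop
  · filter_upwards [ae_ms (S.map (Fin.succEmb N))] with x hx
    obtain ⟨hx0, hxS⟩ := hx
    rw [norm_mul]
    by_cases hne : DD (pk ε κ) (Y (av v) y0 x) p = 0
    · rw [hne, norm_zero, mul_zero]; positivity
    have hw : ∀ lam : Fin (N+1) → ℝ, ‖wt lam x‖ = Real.exp (-∑ k, lam k * x k) := by
      intro lam
      rw [wt, ← Complex.ofReal_prod, Complex.norm_real, ← Real.exp_sum,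
        Real.norm_of_nonneg (Real.exp_pos _).le, ← Finset.sum_neg_distrib]
      congr 1
      exact Finset.sum_congr rfl fun k _ => by ring
    rw [hw, hw]
    refine (mul_le_mul_of_nonneg_left (hC _) (Real.exp_pos _).le).trans ?_
    rw [mul_comm C, ← mul_assoc, ← Real.exp_add, mul_comm C, mul_right_comm, ← Real.exp_add]
    refine mul_le_mul_of_nonneg_right (Real.exp_le_exp.2 ?_) hC0
    rw [sum_kap_Y]
    have h1 : ∑ k, lm (N := N) s k * x k = s * x 0 + ∑ i : Fin N, x i.succ := by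
      rw [Fin.sum_univ_succ]
      simp [lm]
    have h2 : ∑ k : Fin (N+1), (1:ℝ) * x k = x 0 + ∑ i : Fin N, x i.succ := by
      rw [Fin.sum_univ_succ]
      simp
    rw [h1, h2]
    have h3 : ∀ i : Fin N, (ell v κ i : ℝ) * x i.succ ≤
        (ell v κ i : ℝ) * (ε + x 0 + ∑ j, |y0 j|) := by
      intro i
      have hpos : 0 ≤ ε + x 0 + ∑ j, |y0 j| := by
        have := hx0 0
        positivity
      rcases Nat.eq_zero_or_pos (ell v κ i) with h | h
      · rw [h]; simp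
      · refine mul_le_mul_of_nonneg_left ?_ (Nat.cast_nonneg _)
        by_cases hi : i ∈ S
        · rw [hxS i.succ (by simp [hi])]
          exact hpos
        · exact coord_le v ε κ y0 i p (hp i hi h) x (fun k _ => hx0 k) hne (hx0 _)
    have h4 : ∑ i : Fin N, (ell v κ i : ℝ) * x i.succ ≤ (Lam v κ : ℝ) * (ε + x 0 + ∑ j, |y0 j|) := by
      refine (Finset.sum_le_sum fun i _ => h3 i).trans (le_of_eq ?_)
      rw [← Finset.sum_mul]
      unfold Lam
      push_cast
      rfl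
    have h5 : ∑ j, (κ j : ℝ) * y0 j ≤ ∑ j, (κ j : ℝ) * |y0 j| :=
      Finset.sum_le_sum fun j _ => mul_le_mul_of_nonneg_left (le_abs_self _) (Nat.cast_nonneg _)
    have h6 : 0 ≤ (∑ j, (κ j : ℝ)) * x 0 := mul_nonneg (by positivity) (hx0 0)
    have h7 : ((Lam v κ : ℝ) + 1) * x 0 ≤ s * x 0 := mul_le_mul_of_nonneg_right hs (hx0 0)
    rw [hC1]
    nlinarith

lemma insertNth_Y (v : Fin r → Fin N → ℕ) (y0 : Fin r → ℝ) (i : Fin N)
    (x' : Fin N → ℝ) (j : Fin r) (t : ℝ) :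
    HasDerivAt (fun t => Y (av v) y0 (i.succ.insertNth (α := fun _ => ℝ) t x') j) (v j i : ℝ) t := by
  have h5 : (fun t => Y (av v) y0 (i.succ.insertNth (α := fun _ => ℝ) t x') j) = fun t : ℝ =>
      av v j i.succ * t + (∑ k, av v j (i.succ.succAbove k) * x' k + y0 j) := by
    funext t
    unfold Y
    rw [Fin.sum_univ_succAbove _ i.succ]
    simp only [Fin.insertNth_apply_same, Fin.insertNth_apply_succAbove]
    ring
  rw [h5]
  have := ((hasDerivAt_id t).const_mul (av v j i.succ)).add_const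
      (∑ k, av v j (i.succ.succAbove k) * x' k + y0 j)
  simpa [av] using this

/-- boundedness in one direction -/
lemma dir_bdd (v : Fin r → Fin N → ℕ) (ε : ℝ) (hε : 0 < ε) (κ : Fin r → ℕ) (y0 : Fin r → ℝ)
    (i : Fin N) (p : MvPolynomial (Fin r) ℂ) (hp : 0 < ell v κ i → GoodDir v ε κ i p)
    (x' : Fin N → ℝ) :
    ∃ K, ∀ t : ℝ, ‖DD (pk ε κ) (Y (av v) y0 (i.succ.insertNth (α := fun _ => ℝ) t x')) p‖ ≤ K := by
  obtain ⟨C, hC0, hC⟩ := DD_growth ε hε κ p
  -- the exponent is affine in t with slope `ell v κ i`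
  set B : ℝ := ∑ j, (κ j : ℝ) * Y (av v) y0 (i.succ.insertNth (α := fun _ => ℝ) 0 x') j with hB
  have hlin : ∀ (t : ℝ) (j : Fin r), Y (av v) y0 (i.succ.insertNth (α := fun _ => ℝ) t x') j =
      Y (av v) y0 (i.succ.insertNth (α := fun _ => ℝ) 0 x') j + (v j i : ℝ) * t := by
    intro t j
    unfold Y
    rw [Fin.sum_univ_succAbove _ i.succ, Fin.sum_univ_succAbove _ i.succ]
    simp only [Fin.insertNth_apply_same, Fin.insertNth_apply_succAbove]
    simp only [av, Fin.cons_succ]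
    ring
  have hexp : ∀ t, ∑ j, (κ j : ℝ) * Y (av v) y0 (i.succ.insertNth (α := fun _ => ℝ) t x') j =
      B + (ell v κ i : ℝ) * t := by
    intro t
    simp only [hlin t, mul_add, Finset.sum_add_distrib, hB]
    congr 1
    unfold ell
    push_cast
    rw [Finset.sum_mul]
    exact Finset.sum_congr rfl fun j _ => by ring
  rcases Nat.eq_zero_or_pos (ell v κ i) with h | h
  · refine ⟨C * Real.exp B, fun t => (hC _).trans ?_⟩
    rw [hexp t, h]
    simp
  · -- large t: zero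
    set t1 : ℝ := max 0 (ε + 1 + ∑ j, |Y (av v) y0 (i.succ.insertNth (α := fun _ => ℝ) 0 x') j|)
      with ht1
    refine ⟨C * Real.exp (B + (ell v κ i : ℝ) * t1), fun t => ?_⟩
    rcases le_or_gt t t1 with hle | hgt
    · refine (hC _).trans ?_
      rw [hexp t]
      refine mul_le_mul_of_nonneg_left (Real.exp_le_exp.2 ?_) hC0
      gcongr
    · have hz : DD (pk ε κ) (Y (av v) y0 (i.succ.insertNth (α := fun _ => ℝ) t x')) p = 0 := by
        have := hp h 1 (Y (av v) y0 (i.succ.insertNth (α := fun _ => ℝ) t x')) ?_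
        · simpa using this
        intro j hj
        rw [hlin t j]
        have h1 : t ≤ (v j i : ℝ) * t := by
          refine le_mul_of_one_le_left ?_ (by exact_mod_cast hj)
          exact (le_max_left _ _).trans hgt.le
        have h2 : -(∑ j, |Y (av v) y0 (i.succ.insertNth (α := fun _ => ℝ) 0 x') j|) ≤
            Y (av v) y0 (i.succ.insertNth (α := fun _ => ℝ) 0 x') j := by
          have h4 := Finset.single_le_sum
            (f := fun j => |Y (av v) y0 (i.succ.insertNth (α := fun _ => ℝ) 0 x') j|)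
            (fun _ _ => abs_nonneg _) (Finset.mem_univ j)
          have h5 := neg_abs_le (Y (av v) y0 (i.succ.insertNth (α := fun _ => ℝ) 0 x') j)
          linarith
        have h3 : ε + 1 + ∑ j, |Y (av v) y0 (i.succ.insertNth (α := fun _ => ℝ) 0 x') j| < t :=
          (le_max_right _ _).trans_lt hgt
        linarith
      rw [hz, norm_zero]
      positivity

/-- Stokes -/
lemma HH_step (v : Fin r → Fin N → ℕ) (ε : ℝ) (hε : 0 < ε) (κ : Fin r → ℕ) (s : ℝ)
    (hs : (Lam v κ : ℝ) + 1 ≤ s) (y0 : Fin r → ℝ) (S : Finset (Fin N)) (i : Fin N) (hi : i ∉ S)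
    (p : MvPolynomial (Fin r) ℂ) (hp : Gd v ε κ S p) :
    HH v ε κ s y0 S (el v i * p) = HH v ε κ s y0 (insert i S) p := by
  unfold HH
  have hp1 : Gd v ε κ S (el v i * p) := fun i' hi' h => (hp i' hi' h).mul_left _
  have hp2 : Gd v ε κ (insert i S) p := fun i' hi' h =>
    hp i' (fun h' => hi' (Finset.mem_insert_of_mem h')) h
  rw [pi_split _ i.succ _ (HH_integrable v ε hε κ s hs y0 S _ hp1),
    pi_split _ i.succ _ (HH_integrable v ε hε κ s hs y0 (insert i S) _ hp2)]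
  have hms : (fun j => ms ((insert i S).map (Fin.succEmb N)) (i.succ.succAbove j)) =
      fun j => ms (S.map (Fin.succEmb N)) (i.succ.succAbove j) := by
    funext j
    unfold ms
    have h1 : i.succ.succAbove j ≠ i.succ := Fin.succAbove_ne i.succ j
    congr 1
    simp [Finset.mem_map, Finset.mem_insert]
  rw [hms]
  refine integral_congr_ae (Eventually.of_forall fun x' => ?_)
  have hw : ∀ t : ℝ, wt (lm (N := N) s) (i.succ.insertNth (α := fun _ => ℝ) t x') =
      ((Real.exp (-(1:ℝ) * t) : ℝ) : ℂ) *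
        ∏ j, ((Real.exp (-lm (N := N) s (i.succ.succAbove j) * x' j) : ℝ) : ℂ) := by
    intro t
    unfold wt
    rw [Fin.prod_univ_succAbove _ i.succ]
    simp [lm]
  set w := ∏ j, ((Real.exp (-lm (N := N) s (i.succ.succAbove j) * x' j) : ℝ) : ℂ) with hwdef
  have hmsi : ms (S.map (Fin.succEmb N)) i.succ = volume.restrict (Ioi 0) := by
    simp [ms, hi]
  have hmsi' : ms ((insert i S).map (Fin.succEmb N)) i.succ = Measure.dirac 0 := by simp [ms]
  simp only [hmsi, hmsi']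
  rw [integral_dirac]
  simp only [hw]
  obtain ⟨K, hK⟩ := dir_bdd v ε hε κ y0 i p (hp i hi) x'
  obtain ⟨K', hK'⟩ := dir_bdd v ε hε κ y0 i (Lf (fun j => (v j i : ℝ)) * p)
    (fun h => (hp i hi h).mul_left _) x'
  have hcont : Continuous (fun t : ℝ => Y (av v) y0 (i.succ.insertNth (α := fun _ => ℝ) t x')) := by
    refine continuous_pi fun j => ?_
    exact continuous_iff_continuousAt.2 fun t => (insertNth_Y v y0 i x' j t).continuousAt
  have h6 := one_dim (fun t => DD (pk ε κ) (Y (av v) y0 (i.succ.insertNth (α := fun _ => ℝ) t x')) p)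
    (fun t => -(DD (pk ε κ) (Y (av v) y0 (i.succ.insertNth (α := fun _ => ℝ) t x'))
      (Lf (fun j => (v j i : ℝ)) * p)))
    1 one_pos (fun t => DD_hasDerivAt ε hε κ p (fun j => (v j i : ℝ)) _ t
      (fun j => insertNth_Y v y0 i x' j t)) K K'
    (fun t => hK _) (fun t => by rw [norm_neg]; exact hK' _)
    ((DD_cont ε hε κ _).comp hcont).neg
  have h7 : ∀ t : ℝ, (((Real.exp (-(1:ℝ) * t) : ℝ) : ℂ) * w) *
      DD (pk ε κ) (Y (av v) y0 (i.succ.insertNth (α := fun _ => ℝ) t x')) (el v i * p) =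
      w * (((Real.exp (-(1:ℝ) * t) : ℝ) : ℂ) *
        (((1:ℝ) : ℂ) * DD (pk ε κ) (Y (av v) y0 (i.succ.insertNth (α := fun _ => ℝ) t x')) p -
        -(DD (pk ε κ) (Y (av v) y0 (i.succ.insertNth (α := fun _ => ℝ) t x'))
          (Lf (fun j => (v j i : ℝ)) * p)))) := by
    intro t
    rw [el, add_mul, map_add, one_mul]
    push_cast
    ring
  simp only [h7]
  rw [integral_const_mul, h6]
  simp

end Pool.Agent.W425.SM
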