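import Pool.Agent.W425.SM.Defs

set_option autoImplicit false

namespace Pool.Agent.W425.SM

open MvPolynomial Pool.Agent.H628R4.TZ Pool.Agent.H628R4.TP MeasureTheory Set Filter Topology

/-- the primitive -/
noncomputable def Eg (ε : ℝ) (κ : ℕ) (y : ℝ) : ℝ :=
  ∫ z in (0:ℝ)..y, Real.exp (-(κ : ℝ) * z) * (-ph ε 1 z)

noncomputable def ps (ε : ℝ) (κ : ℕ) : ℕ → ℝ → ℝ
  | 0 => fun y => Real.exp ((κ : ℝ) * y) * Eg ε κ y
  | k+1 => fun y => -(κ : ℝ) * ps ε κ k y + ph ε (k+1) y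

lemma ps_zero' (ε : ℝ) (κ : ℕ) (y : ℝ) : ps ε κ 0 y = Real.exp ((κ : ℝ) * y) * Eg ε κ y := rfl

lemma ps_succ (ε : ℝ) (κ k : ℕ) (y : ℝ) :
    ps ε κ (k+1) y = -(κ : ℝ) * ps ε κ k y + ph ε (k+1) y := rfl

lemma ig_cont (ε : ℝ) (hε : 0 < ε) (κ : ℕ) :
    Continuous (fun z : ℝ => Real.exp (-(κ : ℝ) * z) * (-ph ε 1 z)) := by
  have := (ph_dseq ε hε).cont 1
  fun_prop

lemma Eg_deriv (ε : ℝ) (hε : 0 < ε) (κ : ℕ) (y : ℝ) :
    HasDerivAt (Eg ε κ) (Real.exp (-(κ : ℝ) * y) * (-ph ε 1 y)) y :=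
  intervalIntegral.integral_hasDerivAt_right
    ((ig_cont ε hε κ).intervalIntegrable _ _)
    ((ig_cont ε hε κ).stronglyMeasurableAtFilter _ _) (ig_cont ε hε κ).continuousAt

lemma ph_zero_at_zero (ε : ℝ) (hε : 0 < ε) (k : ℕ) : ph ε k 0 = 0 := by
  have h1 : Tendsto (ph ε k) (𝓝[<] 0) (𝓝 (ph ε k 0)) :=
    ((ph_dseq ε hε).cont k).continuousAt.tendsto.mono_left nhdsWithin_le_nhds
  have h2 : Tendsto (ph ε k) (𝓝[<] 0) (𝓝 0) := by
    refine tendsto_const_nhds.congr' ?_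
    filter_upwards [self_mem_nhdsWithin] with t ht
    exact (ph_neg ε hε k t ht).symm
  exact tendsto_nhds_unique h1 h2

lemma Eg_neg (ε : ℝ) (hε : 0 < ε) (κ : ℕ) (y : ℝ) (hy : y ≤ 0) : Eg ε κ y = 0 := by
  unfold Eg
  rw [intervalIntegral.integral_congr (g := fun _ => (0:ℝ))]
  · simp
  · intro z hz
    rw [uIcc_of_ge hy] at hz
    simp only
    rcases hz.2.lt_or_eq with h | h
    · rw [ph_neg ε hε 1 z h]; simp
    · rw [h, ph_zero_at_zero ε hε]; simp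

lemma Eg_big (ε : ℝ) (hε : 0 < ε) (κ : ℕ) (y : ℝ) (hy : ε ≤ y) : Eg ε κ y = Eg ε κ ε := by
  unfold Eg
  rw [← intervalIntegral.integral_add_adjacent_intervals (b := ε)
    ((ig_cont ε hε κ).intervalIntegrable _ _) ((ig_cont ε hε κ).intervalIntegrable _ _)]
  rw [add_eq_left, intervalIntegral.integral_of_le hy]
  refine setIntegral_eq_zero_of_forall_eq_zero fun z hz => ?_
  rw [ph_big ε hε 1 le_rfl z hz.1]; simp

lemma Eg_bdd (ε : ℝ) (hε : 0 < ε) (κ : ℕ) : ∃ C, 0 ≤ C ∧ ∀ y, |Eg ε κ y| ≤ C := by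
  have hc : Continuous (Eg ε κ) :=
    continuous_iff_continuousAt.2 fun y => (Eg_deriv ε hε κ y).continuousAt
  obtain ⟨K, hK⟩ := (isCompact_Icc (a := (0:ℝ)) (b := ε)).exists_bound_of_continuousOn
    hc.continuousOn
  refine ⟨max K 0, le_max_right _ _, fun y => ?_⟩
  rcases le_or_gt y 0 with h | h
  · rw [Eg_neg ε hε κ y h]; simp
  rcases le_or_gt ε y with h' | h'
  · rw [Eg_big ε hε κ y h']
    exact (hK ε ⟨hε.le, le_rfl⟩).trans (le_max_left _ _)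
  · exact (hK y ⟨h.le, h'.le⟩).trans (le_max_left _ _)

lemma ps_deriv (ε : ℝ) (hε : 0 < ε) (κ k : ℕ) (y : ℝ) :
    HasDerivAt (ps ε κ k) (-(ps ε κ (k+1) y)) y := by
  induction k with
  | zero =>
    have h1 : HasDerivAt (fun y : ℝ => Real.exp ((κ : ℝ) * y)) (Real.exp ((κ : ℝ) * y) * κ) y := by
      have := ((hasDerivAt_id y).const_mul (κ : ℝ)).exp
      simpa using this
    refine (h1.mul (Eg_deriv ε hε κ y)).congr_deriv ?_
    rw [ps_succ, ps_zero']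
    have h2 : Real.exp ((κ : ℝ) * y) * Real.exp (-(κ : ℝ) * y) = 1 := by
      rw [← Real.exp_add]; simp
    linear_combination (-ph ε 1 y) * h2
  | succ k ih =>
    have h1 := (ih.const_mul (-(κ : ℝ))).add ((ph_dseq ε hε).deriv (k+1) y)
    refine h1.congr_deriv ?_
    rw [ps_succ ε κ (k+1)]
    ring

lemma ps_cont (ε : ℝ) (hε : 0 < ε) (κ k : ℕ) : Continuous (ps ε κ k) :=
  continuous_iff_continuousAt.2 fun y => (ps_deriv ε hε κ k y).continuousAt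

lemma ps_neg (ε : ℝ) (hε : 0 < ε) (κ k : ℕ) (y : ℝ) (hy : y < 0) : ps ε κ k y = 0 := by
  induction k with
  | zero => rw [ps_zero', Eg_neg ε hε κ y hy.le, mul_zero]
  | succ k ih => rw [ps_succ, ih, ph_neg ε hε _ y hy]; simp

lemma ps_rel (ε : ℝ) (κ k : ℕ) (y : ℝ) : ps ε κ (k+1) y + κ * ps ε κ k y = ph ε (k+1) y := by
  rw [ps_succ]; ring

lemma ps_tail (ε : ℝ) (hε : 0 < ε) (κ k : ℕ) (y : ℝ) (hy : ε < y) :
    ps ε κ (k+1) y + κ * ps ε κ k y = 0 := by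
  rw [ps_rel, ph_big ε hε _ (by omega) y hy]

lemma ps_zero_eq (ε : ℝ) (hε : 0 < ε) (k : ℕ) : ps ε 0 k = ph ε k := by
  cases k with
  | zero =>
    funext y
    rw [ps_zero']
    unfold Eg
    have h1 : ∫ z in (0:ℝ)..y, Real.exp (-((0:ℕ) : ℝ) * z) * (-ph ε 1 z) = ph ε 0 y - ph ε 0 0 := by
      have h2 : ∀ z, HasDerivAt (ph ε 0) (Real.exp (-((0:ℕ) : ℝ) * z) * (-ph ε 1 z)) z := by
        intro z
        have := (ph_dseq ε hε).deriv 0 z
        simpa using this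
      exact intervalIntegral.integral_eq_sub_of_hasDerivAt (fun z _ => h2 z)
        ((ig_cont ε hε 0).intervalIntegrable _ _)
    rw [h1, ph_zero_at_zero ε hε 0]
    simp
  | succ k =>
    funext y
    rw [ps_succ]
    simp

lemma ps_growth (ε : ℝ) (hε : 0 < ε) (κ k : ℕ) :
    ∃ C, 0 ≤ C ∧ ∀ y, |ps ε κ k y| ≤ C * Real.exp ((κ : ℝ) * y) := by
  induction k with
  | zero =>
    obtain ⟨C, hC0, hC⟩ := Eg_bdd ε hε κ
    refine ⟨C, hC0, fun y => ?_⟩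
    rw [ps_zero', abs_mul, abs_of_pos (Real.exp_pos _), mul_comm]
    exact mul_le_mul_of_nonneg_right (hC y) (Real.exp_pos _).le
  | succ k ih =>
    obtain ⟨C, hC0, hC⟩ := ih
    obtain ⟨C', hC'⟩ := (ph_dseq ε hε).bdd (k+1)
    have hC'0 : 0 ≤ C' := (abs_nonneg _).trans (hC' 0)
    refine ⟨κ * C + C', by positivity, fun y => ?_⟩
    rw [ps_succ]
    refine (abs_add_le _ _).trans ?_
    rw [add_mul]
    refine add_le_add ?_ ?_
    · rw [abs_mul, abs_neg, Nat.abs_cast, mul_assoc]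
      exact mul_le_mul_of_nonneg_left (hC y) (Nat.cast_nonneg _)
    · rcases lt_or_ge y 0 with h | h
      · rw [ph_neg ε hε _ y h, abs_zero]; positivity
      · refine (hC' y).trans (le_mul_of_one_le_right hC'0 ?_)
        exact Real.one_le_exp (by positivity)

end Pool.Agent.W425.SM
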